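import Pool.Agent.H97.OC.Stmts

/-!
# LEMMA X by collisions: the pure statement

`t`, `t'` two times on one line. `G`: the plane label at the time `t` (with the exact time `t` and
the side labels); `L`: the line; `S`: the exact time `t'`. All positions are in units of the box
at the upper level: `X` and `x` are the first coordinates at the times `t`, `t'`, `u` is the second
coordinate at the time `t'`, `g`, `g'` the slopes at the times `t`, `t'`. `c`: the context at the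
time `t'` (with the box at the upper level); `z`: the label of the strip at the time `t'`.
-/

set_option autoImplicit false

namespace Pool.LX

open Finset Real
open Pool.Agent.H49.Ent Pool.Agent.H32.Dense Pool.STK Pool.KAF

/-- **The data of LEMMA X.** `n`: the number of digits; `m`: the number of digits by which the
windows of the labels are shorter; `M`: the number of digits of the time `t'`. -/
structure XD {Ω 𝒢 Λ 𝒞 𝒵 : Type} [Fintype Ω] (p : Ω → ℝ) (G : Ω → 𝒢) (L : Ω → Λ) (S : Ω → ℤ)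
    (c : Ω → 𝒞) (z : Ω → 𝒵) (X v x u g g' : Ω → ℝ) (n m M : ℕ) (B γ d ε₀ : ℝ) : Prop where
  law : IsLaw p
  B1 : 1 ≤ B
  γ0 : 0 < γ
  γ1 : γ ≤ 1
  mn : m ≤ n
  nM : n ≤ M
  /-- the position and the velocity at the time `t` are functions of the label and the line -/
  det : ∀ ω ω', 0 < p ω → 0 < p ω' → G ω = G ω' → L ω = L ω' → X ω = X ω' ∧ v ω = v ω'
  /-- the time `t'` lies in a window; motion in the first coordinate -/
  mov : ∃ S₁ : 𝒢 → ℝ, (∀ ω, 0 < p ω → |((S ω : ℝ) - S₁ (G ω))| ≤ B * 2 ^ M) ∧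
    ∀ ω ω', 0 < p ω → 0 < p ω' → G ω = G ω' → S ω = S ω' →
      |(x ω - x ω') - ((X ω - X ω') + ((S ω : ℝ) - S₁ (G ω)) / 2 ^ M * (v ω - v ω'))| ≤ B / 2 ^ n
  vG : ∀ ω ω', 0 < p ω → 0 < p ω' → G ω = G ω' → |v ω - v ω'| ≤ B ∧ |X ω - X ω'| ≤ B / 2 ^ m
  /-- the strips -/
  gG : ∀ ω ω', 0 < p ω → 0 < p ω' → G ω = G ω' → c ω = c ω' → g ω = g ω'
  sG : ∀ ω ω', 0 < p ω → 0 < p ω' → G ω = G ω' → c ω = c ω' →
    |(u ω - u ω') - g ω * (x ω - x ω')| ≤ B / 2 ^ n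
  sz : ∀ ω ω', 0 < p ω → 0 < p ω' → c ω = c ω' → z ω = z ω' →
    |(u ω - u ω') - g' ω * (x ω - x ω')| ≤ B / 2 ^ n ∧ |x ω - x ω'| ≤ B / 2 ^ m
  gB : ∀ ω, 0 < p ω → |g ω| ≤ B ∧ |g' ω| ≤ B
  /-- the context at the time `t'` -/
  cS : ∀ ω ω', 0 < p ω → 0 < p ω' → c ω = c ω' → S ω = S ω'
  cB : ∀ ω ω', 0 < p ω → 0 < p ω' → c ω = c ω' → |x ω - x ω'| ≤ B
  cN : ∃ F : 𝒢 × ℤ → Finset 𝒞, (∀ y, ((F y).card : ℝ) ≤ B) ∧ ∀ ω, 0 < p ω → c ω ∈ F (G ω, S ω)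
  /-- fullness of the position at the time `t`, of the time `t'`, of the position at the time
  `t'` -/
  f1 : ((n : ℝ) - m) * Real.log 2 - d ≤ CH p (fun ω => ⌊(2 : ℝ) ^ n * X ω⌋) G
  f2 : (M : ℝ) * Real.log 2 - d ≤ CH p S (fun ω => (G ω, L ω))
  f3 : ((n : ℝ) - m) * Real.log 2 - d ≤
    CH p (fun ω => ⌊(2 : ℝ) ^ n * x ω⌋) (fun ω => (c ω, z ω))
  /-- the slopes are different -/
  tur : Pr p {ω | |g ω - g' ω| < γ} ≤ ε₀

/-- **(X)** The block of the rows `n` of both coordinates is full given the context. -/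
def XStmt : Prop :=
  ∀ B : ℝ, 1 ≤ B → ∃ C : ℝ, 0 < C ∧ ∀ (Ω 𝒢 Λ 𝒞 𝒵 : Type) [Fintype Ω] (p : Ω → ℝ) (G : Ω → 𝒢)
    (L : Ω → Λ) (S : Ω → ℤ) (c : Ω → 𝒞) (z : Ω → 𝒵) (X v x u g g' : Ω → ℝ) (n m M : ℕ)
    (γ d ε₀ s : ℝ), XD p G L S c z X v x u g g' n m M B γ d ε₀ → 0 ≤ d → 1 ≤ s →
    ε₀ + C * (d + 1) / s ≤ 1 / 2 →
    (2 * (n : ℝ) - 3 * m) * Real.log 2 - (4 * (ε₀ + C * (d + 1) / s) * n + 8 * s +
      2 * Real.log (n + 1) + Real.log (1 / γ) + C) ≤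
      CH p (fun ω => (⌊(2 : ℝ) ^ n * x ω⌋, ⌊(2 : ℝ) ^ n * u ω⌋)) c

end Pool.LX
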