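import Pool.Agent.H86.LX.Geo

/-!
# LEMMA X, class half: the data of LEMMA X on the pairs of two times of one window
-/

set_option autoImplicit false

namespace Pool.LX

open Finset Real
open Pool.Agent.H49.Ent Pool.Agent.H32.Dense Pool.STK Pool.KA Pool.KSAT Pool.K2S Pool.PB Pool.KS6
  Pool.S6C Pool.S6U Pool.S6V Pool.KA.Box

variable {J : ℕ} {F : Fam 3 J} {B : F.Ω → Prop} {ς : Fin 3 → Fin 3}
  {w₀ wx wy q D n P : ℕ} {C : ℝ} {Λ : Type} {κ : F.Ω → Λ} {pl : Λ → Pln} {al a : F.Ω → ℝ}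

theorem abs_fl {k : ℕ} {x y r : ℝ} (h : |x - y| ≤ r / 2 ^ k) :
    ((⌊(2 : ℝ) ^ k * x⌋ : ℝ) - ⌊(2 : ℝ) ^ k * y⌋) ≤ r + 1 := by
  have h1 := floor_diff ((2 : ℝ) ^ k * x) (2 ^ k * y)
  have h2 := (le_abs_self (x - y)).trans h
  have h3 : (2 : ℝ) ^ k * (x - y) ≤ r := by
    rw [le_div_iff₀ (by positivity)] at h2
    linarith
  linarith

/-- The label of the plank at the second time is that at the first time. -/
theorem kap_eq (hD : LxD F B ς w₀ wx wy q D n P C κ pl al a) {η ω : F.Ω} (hη : B η) (hω : B ω)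
    (e : slam F wx η = slam F wx ω) : κ η = κ ω := by
  obtain ⟨ψ, hψ⟩ := hD.ksl
  have h1 := hD.lev
  have h2 := hD.PJ
  rw [hψ η hη, hψ ω hω, slam_le F hD.w0x (by omega) e]

/-- The number of the contexts at the second time, given the label and the second time. -/
theorem ctx_cnt (hD : LxD F B ς w₀ wx wy q D n P C κ pl al a) {V : Type} [Fintype V] {r : V → ℝ}
    {η ω : V → F.Ω} (h : ∀ v, r v ≠ 0 → B (η v) ∧ B (ω v) ∧ slam F wx (η v) = slam F wx (ω v)) :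
    cnt r (fun v => cx F ς wx q D P κ pl al (η v))
      (fun v => (lb F ς wx wy q D n P κ pl a (ω v), (F.T (η v) : ℤ)))
      ((6 * C + 1 + 1) * ((2 + 1 + 1) * ((6 * C + 4 + 1 + 1) * ((2 + 1 + 1) * 1)))) := by
  have hC := hD.C1
  have hlev := hD.lev
  -- consequences of the equality of the labels
  have key : ∀ v v', lb F ς wx wy q D n P κ pl a (ω v) = lb F ς wx wy q D n P κ pl a (ω v') →
      (κ (ω v) = κ (ω v') ∧ a (ω v) = a (ω v')) ∧ F.Z (ω v) = F.Z (ω v') := by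
    intro v v' hl
    unfold lb lxl at hl
    simp only [Prod.mk.injEq] at hl
    obtain ⟨l1, ⟨l2, l3⟩, ⟨⟨l4, l5⟩, ⟨l6, l7⟩, l8, l9⟩, l10⟩ := hl
    exact ⟨⟨l4, l5⟩, l10⟩
  have hTT : ∀ v v', (F.T (η v) : ℤ) = F.T (η v') → F.T (η v) = F.T (η v') := by
    intro v v' h
    exact_mod_cast h
  have hald : ∀ v v', Uni.dg D al (η v) = Uni.dg D al (η v') →
      ald D al (η v) = ald D al (η v') := by
    intro v v' h
    unfold ald
    rw [h]
  refine cnt_step (fun v => Uni.dg D al (η v)) (by linarith) (by positivity) ?_ ?_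
  · intro v v' hv hv' e
    have e1 := Prod.ext_iff.mp e
    obtain ⟨b1, b2, b3⟩ := h v hv
    obtain ⟨c1, c2, c3⟩ := h v' hv'
    have s1 := slo hD b1 b2 b3
    have s2 := slo hD c1 c2 c3
    rw [← (key v v' e1.1).1.2] at s2
    refine abs_fl (r := 6 * C) ?_
    have : 6 * C / 2 ^ D = 3 * C / 2 ^ D + 3 * C / 2 ^ D := by ring
    rw [this]
    rw [abs_le] at s1 s2 ⊢
    constructor <;> linarith [s1.1, s1.2, s2.1, s2.2]
  refine cnt_step (fun v => ⌊(2 : ℝ) ^ (wx + q) * F.x (η v) (ς 0)⌋) (by norm_num) (by positivity)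
    ?_ ?_
  · intro v v' hv hv' e
    have e0 := Prod.ext_iff.mp e
    have e1 := Prod.ext_iff.mp e0.1
    obtain ⟨b1, b2, b3⟩ := h v hv
    obtain ⟨c1, c2, c3⟩ := h v' hv'
    have t := two hD b3 c3 e1.1 (hTT _ _ e1.2)
    exact abs_fl (r := 2) t.1
  refine cnt_step (fun v => ⌊(2 : ℝ) ^ (wx + q + D) *
    fu (ς 0) (ς 1) (ald D al (η v)) (F.x (η v))⌋) (by linarith) (by positivity) ?_ ?_
  · intro v v' hv hv' e
    have e0 := Prod.ext_iff.mp (Prod.ext_iff.mp e).1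
    have e1 := Prod.ext_iff.mp e0.1
    obtain ⟨b1, b2, b3⟩ := h v hv
    obtain ⟨c1, c2, c3⟩ := h v' hv'
    have t := two hD b3 c3 e1.1 (hTT _ _ e1.2)
    have ea := hald v v' e0.2
    refine abs_fl (r := 6 * C + 4) ?_
    have f1 : fu (ς 0) (ς 1) (ald D al (η v)) (F.x (η v)) -
        fu (ς 0) (ς 1) (ald D al (η v')) (F.x (η v')) =
        (fu (ς 0) (ς 1) (a (ω v)) (F.x (η v)) - fu (ς 0) (ς 1) (a (ω v)) (F.x (η v'))) +
          (a (ω v) - ald D al (η v)) * (F.x (η v) (ς 0) - F.x (η v') (ς 0)) := by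
      rw [← ea]
      unfold fu
      ring
    rw [f1]
    have g1 : |a (ω v) - ald D al (η v)| ≤ (3 * C + 1) / 2 ^ D := by
      have s1 := slo hD b1 b2 b3
      have s2 := ald_near D al (η v)
      have : (3 * C + 1) / 2 ^ D = 3 * C / 2 ^ D + 1 / 2 ^ D := by ring
      rw [this]
      rw [abs_le] at s1 s2 ⊢
      constructor <;> linarith [s1.1, s1.2, s2.1, s2.2]
    have g2 : |(a (ω v) - ald D al (η v)) * (F.x (η v) (ς 0) - F.x (η v') (ς 0))| ≤
        (3 * C + 1) / 2 ^ D * (2 / 2 ^ (wx + q)) := by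
      rw [abs_mul]
      exact mul_le_mul g1 t.1 (abs_nonneg _) (by positivity)
    have g3 : (2 : ℝ) / 2 ^ (wx + q + D + n) ≤ 2 / 2 ^ (wx + q + D) :=
      div_le_div_of_nonneg_left (by norm_num) (by positivity)
        (pow_le_pow_right₀ (by norm_num) (by omega))
    have g4 : (3 * C + 1) / 2 ^ D * (2 / 2 ^ (wx + q)) = (6 * C + 2) / 2 ^ (wx + q + D) := by
      rw [pow_add 2 (wx + q) D]
      field_simp
      ring
    refine (abs_add_le _ _).trans ?_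
    have g5 : (6 * C + 4) / 2 ^ (wx + q + D) = 2 / 2 ^ (wx + q + D) +
        (6 * C + 2) / 2 ^ (wx + q + D) := by ring
    rw [g5]
    linarith [t.2.1]
  refine cnt_step (fun v => ⌊(2 : ℝ) ^ P *
    fn (ς 0) (ς 1) (ς 2) (pl (κ (η v))).c (pl (κ (η v))).s (F.x (η v))⌋) (by norm_num)
      (by norm_num) ?_ ?_
  · intro v v' hv hv' e
    have e0 := Prod.ext_iff.mp (Prod.ext_iff.mp (Prod.ext_iff.mp e).1).1
    have e1 := Prod.ext_iff.mp e0.1
    obtain ⟨b1, b2, b3⟩ := h v hv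
    obtain ⟨c1, c2, c3⟩ := h v' hv'
    have t := two hD b3 c3 e1.1 (hTT _ _ e1.2)
    have k1 := kap_eq hD b1 b2 b3
    have k2 := kap_eq hD c1 c2 c3
    rw [k1, k2, ← (key v v' e1.1).1.1]
    exact abs_fl (r := 2) t.2.2
  · refine cnt_det ?_
    intro v v' hv hv' e
    have e4 := Prod.ext_iff.mp e
    have e3 := Prod.ext_iff.mp e4.1
    have e2 := Prod.ext_iff.mp e3.1
    have e1 := Prod.ext_iff.mp e2.1
    have e0 := Prod.ext_iff.mp e1.1
    obtain ⟨b1, b2, b3⟩ := h v hv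
    obtain ⟨c1, c2, c3⟩ := h v' hv'
    have k1 := kap_eq hD b1 b2 b3
    have k2 := kap_eq hD c1 c2 c3
    have hk : κ (η v) = κ (η v') := by
      rw [k1, k2]
      exact (key v v' e0.1).1.1
    have hdg : Uni.dg D al (η v) = Uni.dg D al (η v') := e1.2
    have ha := hald v v' hdg
    have hZ : F.Z (η v) = F.Z (η v') := by
      have z1 : F.Z (η v) = F.Z (ω v) := (Prod.ext_iff.mp (Prod.ext_iff.mp b3).2).1
      have z2 : F.Z (η v') = F.Z (ω v') := (Prod.ext_iff.mp (Prod.ext_iff.mp c3).2).1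
      rw [z1, z2]
      exact (key v v' e0.1).2
    have hW : F.W (η v) = F.W (η v') := by
      unfold Fam.W
      rw [hTT _ _ e0.2, hZ]
    have i2 : ⌊(2 : ℝ) ^ (wx + q) * F.x (η v) (ς 0)⌋ = ⌊(2 : ℝ) ^ (wx + q) * F.x (η v') (ς 0)⌋ :=
      e2.2
    have i3 : ⌊(2 : ℝ) ^ (wx + q + D) * fu (ς 0) (ς 1) (ald D al (η v)) (F.x (η v))⌋ =
        ⌊(2 : ℝ) ^ (wx + q + D) * fu (ς 0) (ς 1) (ald D al (η v')) (F.x (η v'))⌋ := e3.2
    have i4 : ⌊(2 : ℝ) ^ P * fn (ς 0) (ς 1) (ς 2) (pl (κ (η v))).c (pl (κ (η v))).s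
        (F.x (η v))⌋ = ⌊(2 : ℝ) ^ P * fn (ς 0) (ς 1) (ς 2) (pl (κ (η v'))).c (pl (κ (η v'))).s
        (F.x (η v'))⌋ := e4.2
    show cx F ς wx q D P κ pl al (η v) = cx F ς wx q D P κ pl al (η v')
    unfold cx
    rw [hdg, hk, hW]
    refine Prod.ext ?_ rfl
    unfold Fam.sbx
    refine Prod.ext ?_ ?_
    · show (ald D al (η v), -(pl (κ (η v))).s, -(pl (κ (η v))).c) =
        (ald D al (η v'), -(pl (κ (η v'))).s, -(pl (κ (η v'))).c)
      rw [ha, hk]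
    · funext i
      fin_cases i
      · show ⌊(2 : ℝ) ^ (wx + q) * mco (tfr ς (ald D al (η v)) (-(pl (κ (η v))).s)
          (-(pl (κ (η v))).c)) (F.x (η v)) 0⌋ = ⌊(2 : ℝ) ^ (wx + q) * mco (tfr ς (ald D al (η v'))
          (-(pl (κ (η v'))).s) (-(pl (κ (η v'))).c)) (F.x (η v')) 0⌋
        rw [mco_tfr0, mco_tfr0]
        exact i2
      · show ⌊(2 : ℝ) ^ (wx + q + D) * mco (tfr ς (ald D al (η v)) (-(pl (κ (η v))).s)
          (-(pl (κ (η v))).c)) (F.x (η v)) 1⌋ = ⌊(2 : ℝ) ^ (wx + q + D) * mco (tfr ς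
          (ald D al (η v')) (-(pl (κ (η v'))).s) (-(pl (κ (η v'))).c)) (F.x (η v')) 1⌋
        rw [mco_tfr1, mco_tfr1]
        exact i3
      · show ⌊(2 : ℝ) ^ P * mco (tfr ς (ald D al (η v)) (-(pl (κ (η v))).s)
          (-(pl (κ (η v))).c)) (F.x (η v)) 2⌋ = ⌊(2 : ℝ) ^ P * mco (tfr ς (ald D al (η v'))
          (-(pl (κ (η v'))).s) (-(pl (κ (η v'))).c)) (F.x (η v')) 2⌋
        rw [mco_tfr2, mco_tfr2]
        have j1 : ∀ ω' : F.Ω, F.x ω' (ς 2) - -(pl (κ ω')).s * F.x ω' (ς 1) -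
            -(pl (κ ω')).c * F.x ω' (ς 0) =
            fn (ς 0) (ς 1) (ς 2) (pl (κ ω')).c (pl (κ ω')).s (F.x ω') := by
          intro ω'
          unfold fn
          ring
        rw [j1, j1]
        exact i4

end Pool.LX
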