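import Pool.Agent.H86.LX.Abs
import Pool.Agent.H86.LX.Inst

/-!
# LEMMA X, class half: one family
-/

set_option autoImplicit false

namespace Pool.LX

open Finset Real
open Pool.Agent.H49.Ent Pool.Agent.H32.Dense Pool.STK Pool.KA Pool.KSAT Pool.K2S Pool.PB Pool.KS6
  Pool.S6C Pool.S6U Pool.S6V Pool.KA.Box

section lab

variable {J : ℕ} {F : Fam 3 J} {B : F.Ω → Prop} {ς : Fin 3 → Fin 3}
  {w₀ wx wy q D n P : ℕ} {C : ℝ} {Λ : Type} {κ : F.Ω → Λ} {pl : Λ → Pln} {al a : F.Ω → ℝ}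

theorem lab_of (hD : LxD F B ς w₀ wx wy q D n P C κ pl al a) {N₀ : ℝ}
    (hN₀ : N₀ = (6 * C + 1 + 1) * ((2 + 1 + 1) * ((6 * C + 4 + 1 + 1) * ((2 + 1 + 1) * 1)))) :
    Lab F B ς wx wy q D n C N₀ al a (lb F ς wx wy q D n P κ pl a)
      (cx F ς wx q D P κ pl al) := by
  refine ⟨⟨fun G => (G.1 : ℝ), fun ω => rfl⟩, ?_, ?_, ?_, ?_, ?_, ?_⟩
  · intro ω ω' hl
    unfold lb lxl at hl
    simp only [Prod.mk.injEq] at hl
    obtain ⟨l1, ⟨l2, l3⟩, ⟨⟨l4, l5⟩, ⟨l6, l7⟩, l8, l9⟩, l10⟩ := hl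
    exact ⟨l1, l5, l3⟩
  · intro ω ω' hc
    unfold cx at hc
    have e1 := Prod.ext_iff.mp hc
    have e2 := Prod.ext_iff.mp e1.2
    have e3 := Prod.ext_iff.mp e2.2
    refine ⟨(Prod.ext_iff.mp e3.2).1, ?_, ?_⟩
    · have : Uni.dg D al ω = Uni.dg D al ω' := e2.1
      unfold ald
      rw [this]
    · have e4 := congrFun (Prod.ext_iff.mp e1.1).2 0
      have e5 : ⌊(2 : ℝ) ^ (wx + q) * mco (tfr ς (ald D al ω) (-(pl (κ ω)).s)
          (-(pl (κ ω)).c)) (F.x ω) 0⌋ = ⌊(2 : ℝ) ^ (wx + q) * mco (tfr ς (ald D al ω')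
          (-(pl (κ ω')).s) (-(pl (κ ω')).c)) (F.x ω') 0⌋ := e4
      rw [mco_tfr0, mco_tfr0] at e5
      exact e5
  · intro η ω η' ω' e e' hl hT
    exact (two hD e e' hl hT).2.1
  · intro ω ω' hl
    exact own hD hl
  · intro η ω b1 b2 e
    exact slo hD b1 b2 e
  · intro V _ r η ω h
    have := ctx_cnt hD (r := r) (η := η) (ω := ω) h
    rw [← hN₀] at this
    exact this

end lab

/-- **(LXB)** -/
theorem lxb_thm : LxBStmt := by
  intro C hC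
  set N₀ : ℝ := (6 * C + 1 + 1) * ((2 + 1 + 1) * ((6 * C + 4 + 1 + 1) * ((2 + 1 + 1) * 1)))
    with hN₀
  have hN1' : 1 ≤ N₀ := by rw [hN₀]; nlinarith
  have hlN : 0 ≤ Real.log N₀ := Real.log_nonneg hN1'
  obtain ⟨C', hC', hX⟩ := x_thm N₀ hN1'
  refine ⟨C' * (1 + Real.log N₀) + C' + 4 * C + 1, by positivity, ?_⟩
  intro J F B ς w₀ wx wy q D n P g Λ κ pl al a d ε₀ s hB hD hd hs hε hgn h1 h2 h3
  set K : ℝ := C' * (1 + Real.log N₀) + C' + 4 * C + 1 with hK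
  have hCl : 0 ≤ C' * (1 + Real.log N₀) := by positivity
  have hs0 : 0 < s := by linarith
  have hgn' : 4 * C * 2 ^ g ≤ (2 : ℝ) ^ n := by
    have hgn2 : g ≤ n := by
      have : (g : ℝ) ≤ n := by linarith
      exact_mod_cast this
    obtain ⟨e, rfl⟩ := Nat.exists_eq_add_of_le hgn2
    push_cast at hgn
    have h5 : (e : ℝ) < 2 ^ e := by exact_mod_cast Nat.lt_two_pow_self
    rw [pow_add]
    have h0 : (0 : ℝ) < 2 ^ g := by positivity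
    nlinarith
  have hxy := hD.xy
  have hlev := hD.lev
  have hPJ := hD.PJ
  have hN1 : 6 * C + 2 ≤ N₀ := by rw [hN₀]; nlinarith
  have hinst := inst_abs hC hN1 (lab_of hD hN₀) hxy hD.mn (by omega) hD.near hB hgn' h1 h2 h3
  have hm : ((wy - wx : ℕ) : ℝ) = (wy : ℝ) - wx := by
    push_cast [hxy]
    ring
  have hKd : C' * (d + Real.log N₀ + 1) ≤ K * (d + 1) := by
    rw [hK]
    nlinarith
  have hKds : C' * (d + Real.log N₀ + 1) / s ≤ K * (d + 1) / s :=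
    div_le_div_of_nonneg_right hKd hs0.le
  have h := hX _ _ _ _ _ _ _ _ _ _ _ _ _ _ _ _ _ n (wy - wx) (J - wx)
    (1 / 2 ^ (g + 1)) (d + Real.log N₀) ε₀ s hinst (by linarith) hs (by linarith)
  rw [hm] at h
  have hμl : IsLaw (Pool.Agent.H49.Ent.cond F.p B True) := isLaw_cond F.isLaw hB
  set μ := Pool.Agent.H49.Ent.cond F.p B True with hμ
  have hfl : ∀ (k l : ℕ) (y : ℝ), ⌊(2 : ℝ) ^ l * (2 ^ k * y)⌋ = ⌊(2 : ℝ) ^ (k + l) * y⌋ := by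
    intro k l y
    rw [pow_add]
    congr 1
    ring
  simp_rw [hfl] at h
  have e1 := CH_fst hμl (slam F wx) (fun ω => (⌊(2 : ℝ) ^ (wx + q + n) * F.x ω (ς 0)⌋,
      ⌊(2 : ℝ) ^ (wx + q + D + n) * fu (ς 0) (ς 1) (ald D al ω) (F.x ω)⌋))
      (cx F ς wx q D P κ pl al)
  rw [e1] at h
  have e2 : CH μ (fun ω => (⌊(2 : ℝ) ^ (wx + q + n) * F.x ω (ς 0)⌋,
      ⌊(2 : ℝ) ^ (wx + q + D + n) * fu (ς 0) (ς 1) (ald D al ω) (F.x ω)⌋))
      (fun ω => cx F ς wx q D P κ pl al ω) ≤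
      CH μ (F.sbx ς (wx + q + n) (wx + q + D + n) P (ald D al) (fun ω => -(pl (κ ω)).s)
          (fun ω => -(pl (κ ω)).c)) (fun ω => cx F ς wx q D P κ pl al ω) := by
    refine CH_mono_left hμl.nonneg (fun ω ω' _ _ e₀ => ?_)
    have e := (Prod.ext_iff.mp e₀).1
    have c0 := congrFun (Prod.ext_iff.mp e).2 0
    have c1 := congrFun (Prod.ext_iff.mp e).2 1
    have c0' : ⌊(2 : ℝ) ^ (wx + q + n) * mco (tfr ς (ald D al ω) (-(pl (κ ω)).s)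
          (-(pl (κ ω)).c)) (F.x ω) 0⌋ = ⌊(2 : ℝ) ^ (wx + q + n) * mco (tfr ς (ald D al ω')
          (-(pl (κ ω')).s) (-(pl (κ ω')).c)) (F.x ω') 0⌋ := c0
    have c1' : ⌊(2 : ℝ) ^ (wx + q + D + n) * mco (tfr ς (ald D al ω) (-(pl (κ ω)).s)
          (-(pl (κ ω)).c)) (F.x ω) 1⌋ = ⌊(2 : ℝ) ^ (wx + q + D + n) * mco (tfr ς (ald D al ω')
          (-(pl (κ ω')).s) (-(pl (κ ω')).c)) (F.x ω') 1⌋ := c1
    rw [mco_tfr0, mco_tfr0] at c0'
    rw [mco_tfr1, mco_tfr1] at c1'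
    exact Prod.ext c0' c1'
  refine le_trans ?_ (h.trans e2)
  have hlg : Real.log (1 / (1 / 2 ^ (g + 1))) = ((g : ℝ) + 1) * Real.log 2 := by
    rw [one_div_one_div, Real.log_pow]
    push_cast
    ring
  rw [hlg]
  have hl2 : Real.log 2 ≤ 1 := by
    have := Real.log_two_lt_d9
    linarith
  have hn0 : (0 : ℝ) ≤ n := Nat.cast_nonneg n
  have h6 : 4 * (ε₀ + C' * (d + Real.log N₀ + 1) / s) * n ≤ 4 * (ε₀ + K * (d + 1) / s) * n :=
    mul_le_mul_of_nonneg_right (by linarith) hn0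
  have h7 : C' + 1 ≤ K := by rw [hK]; linarith
  linarith

end Pool.LX
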