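import Pool.Agent.H86.LX.Geo

/-!
# LEMMA X, class half: the data of LEMMA X on pairs, for abstract labels
-/

set_option autoImplicit false

namespace Pool.LX

open Finset Real
open Pool.Agent.H49.Ent Pool.Agent.H32.Dense Pool.STK Pool.KA Pool.KSAT Pool.K2S Pool.PB Pool.KS6
  Pool.S6C Pool.S6U Pool.S6V

section pairs

variable {Ω S T U : Type} [Fintype Ω]

theorem isLaw_dbl {μ : Ω → ℝ} (h : IsLaw μ) (Z : Ω → U) : IsLaw (dbl μ Z) :=
  ⟨glue_nonneg h.nonneg h.nonneg, by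
    unfold dbl
    rw [sum_glue h.nonneg (fun _ => rfl), h.sum_one]⟩

theorem CH_fst {μ : Ω → ℝ} (h : IsLaw μ) (Z : Ω → U) (X : Ω → S) (Y : Ω → T) :
    CH (dbl μ Z) (fun v => X v.1) (fun v => Y v.1) = CH μ X Y := by
  unfold CH dbl
  rw [H_glue_fst h.nonneg (fun _ => rfl) Y, H_glue_fst h.nonneg (fun _ => rfl)
    (fun ω => (X ω, Y ω))]

theorem CH_snd {μ : Ω → ℝ} (h : IsLaw μ) (Z : Ω → U) (X : Ω → S) (Y : Ω → T) :
    CH (dbl μ Z) (fun v => X v.2) (fun v => Y v.2) = CH μ X Y := by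
  unfold CH dbl
  rw [H_glue_snd h.nonneg (fun _ => rfl) Y, H_glue_snd h.nonneg (fun _ => rfl)
    (fun ω => (X ω, Y ω))]

theorem CH_mid {μ : Ω → ℝ} (h : IsLaw μ) (Z : Ω → U) (X : Ω → S) (Y : Ω → T) :
    CH μ X Z ≤ CH (dbl μ Z) (fun v => X v.1) (fun v => (Y v.2, Z v.2)) := by
  have e2 : CH (dbl μ Z) (fun v => X v.1) (fun v => (Z v.1, Y v.2)) = CH μ X Z :=
    CH_glue_fst h.nonneg h.nonneg (fun _ => rfl) X Y (fun _ _ _ _ h => h)
  rw [← e2]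
  refine CH_mono_cond (isLaw_dbl h Z).nonneg (fun v v' hv hv' e => ?_)
  have e0 := Prod.ext_iff.mp e
  have g1 := ((glue_pos_iff h.nonneg h.nonneg v).mp hv).2.2
  have g2 := ((glue_pos_iff h.nonneg h.nonneg v').mp hv').2.2
  refine Prod.ext e0.2 ?_
  show Z v.2 = Z v'.2
  rw [← g1, ← g2]
  exact e0.1

end pairs

section abs

variable {J : ℕ} {F : Fam 3 J} {B : F.Ω → Prop} {ς : Fin 3 → Fin 3}
  {wx wy q D n : ℕ} {C : ℝ} {al a : F.Ω → ℝ}

/-- What is used of the label and of the context. -/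
structure Lab (F : Fam 3 J) (B : F.Ω → Prop) (ς : Fin 3 → Fin 3) (wx wy q D n : ℕ) (C N₀ : ℝ)
    (al a : F.Ω → ℝ) {𝒢 𝒞 : Type} (lab : F.Ω → 𝒢) (ctx : F.Ω → 𝒞) : Prop where
  tm : ∃ f : 𝒢 → ℝ, ∀ ω, f (lab ω) = F.T ω
  lbT : ∀ ω ω', lab ω = lab ω' → F.T ω = F.T ω' ∧ a ω = a ω' ∧
    ⌊(2 : ℝ) ^ q * F.d ω (ς 0)⌋ = ⌊(2 : ℝ) ^ q * F.d ω' (ς 0)⌋
  cxT : ∀ ω ω', ctx ω = ctx ω' → F.T ω = F.T ω' ∧ ald D al ω = ald D al ω' ∧
    ⌊(2 : ℝ) ^ (wx + q) * F.x ω (ς 0)⌋ = ⌊(2 : ℝ) ^ (wx + q) * F.x ω' (ς 0)⌋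
  two : ∀ η ω η' ω', slam F wx η = slam F wx ω → slam F wx η' = slam F wx ω' →
    lab ω = lab ω' → F.T η = F.T η' →
    |fu (ς 0) (ς 1) (a ω) (F.x η) - fu (ς 0) (ς 1) (a ω) (F.x η')| ≤ 2 / 2 ^ (wx + q + D + n)
  own : ∀ ω ω', lab ω = lab ω' → |F.x ω (ς 0) - F.x ω' (ς 0)| ≤ 2 / 2 ^ (wy + q)
  slo : ∀ η ω, B η → B ω → slam F wx η = slam F wx ω → |al η - a ω| ≤ 3 * C / 2 ^ D
  num : ∀ (V : Type) [Fintype V] (r : V → ℝ) (η ω : V → F.Ω),
    (∀ v, r v ≠ 0 → B (η v) ∧ B (ω v) ∧ slam F wx (η v) = slam F wx (ω v)) →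
    cnt r (fun v => ctx (η v)) (fun v => (lab (ω v), (F.T (η v) : ℤ))) N₀

theorem T_near {wx : ℕ} (hJ : wx ≤ J) {η ω : F.Ω} (e : F.T1 wx η = F.T1 wx ω) :
    |(F.T η : ℝ) - F.T ω| ≤ 2 ^ (J - wx) := by
  unfold Fam.T1 at e
  have a1 := Nat.div_mul_le_self (F.T η) (2 ^ (J - wx))
  have a2 := Nat.lt_div_mul_add (a := F.T η) (b := 2 ^ (J - wx)) (by positivity)
  have b1 := Nat.div_mul_le_self (F.T ω) (2 ^ (J - wx))
  have b2 := Nat.lt_div_mul_add (a := F.T ω) (b := 2 ^ (J - wx)) (by positivity)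
  rw [e] at a1 a2
  have c1 : ((F.T ω / 2 ^ (J - wx) * 2 ^ (J - wx) : ℕ) : ℝ) ≤ F.T η := by exact_mod_cast a1
  have c2 : (F.T η : ℝ) < ((F.T ω / 2 ^ (J - wx) * 2 ^ (J - wx) : ℕ) : ℝ) + 2 ^ (J - wx) := by
    exact_mod_cast a2
  have d1 : ((F.T ω / 2 ^ (J - wx) * 2 ^ (J - wx) : ℕ) : ℝ) ≤ F.T ω := by exact_mod_cast b1
  have d2 : (F.T ω : ℝ) < ((F.T ω / 2 ^ (J - wx) * 2 ^ (J - wx) : ℕ) : ℝ) + 2 ^ (J - wx) := by
    exact_mod_cast b2
  rw [abs_le]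
  constructor <;> linarith

/-- **The data of LEMMA X.** -/
theorem inst_abs {𝒢 𝒞 : Type} {lab : F.Ω → 𝒢} {ctx : F.Ω → 𝒞} {N₀ : ℝ} (hC : 1 ≤ C)
    (hN1 : 6 * C + 2 ≤ N₀) (hL : Lab F B ς wx wy q D n C N₀ al a lab ctx)
    (hxy : wx ≤ wy) (hmn : wy ≤ wx + n) (hnJ : wx + n ≤ J)
    (near : ∀ ω, B ω → |al ω - a ω| ≤ C / 2 ^ (D + n))
    (hB : 0 < Pe F.p B) {g : ℕ} {d ε₀ : ℝ} (hgn : 4 * C * 2 ^ g ≤ 2 ^ n)
    (h1 : ((n : ℝ) - (wy - wx)) * Real.log 2 - d ≤ CH (Pool.Agent.H49.Ent.cond F.p B True)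
      (fun ω => ⌊(2 : ℝ) ^ (wx + q + n) * F.x ω (ς 0)⌋) lab)
    (h2 : ((J : ℝ) - wx) * Real.log 2 - d ≤
      CH (Pool.Agent.H49.Ent.cond F.p B True) F.T (slam F wx))
    (h3 : Pool.KAF.Pr (dbl (Pool.Agent.H49.Ent.cond F.p B True) (slam F wx))
      {v | |al v.1 - al v.2| ≤ 1 / 2 ^ (D + g)} ≤ ε₀) :
    XD (dbl (Pool.Agent.H49.Ent.cond F.p B True) (slam F wx))
      (fun v => lab v.2) (fun v => slam F wx v.2)
      (fun v => (F.T v.1 : ℤ)) (fun v => ctx v.1)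
      (fun v => lab v.1)
      (fun v => 2 ^ (wx + q) * F.x v.2 (ς 0)) (fun v => 2 ^ q * F.d v.2 (ς 0))
      (fun v => 2 ^ (wx + q) * F.x v.1 (ς 0))
      (fun v => 2 ^ (wx + q + D) * fu (ς 0) (ς 1) (ald D al v.1) (F.x v.1))
      (fun v => 2 ^ D * (a v.2 - ald D al v.1)) (fun v => 2 ^ D * (a v.1 - ald D al v.1))
      n (wy - wx) (J - wx) N₀ (1 / 2 ^ (g + 1)) (d + Real.log N₀) ε₀ := by
  classical
  have hN1' : 1 ≤ N₀ := by linarith
  have hlN : 0 ≤ Real.log N₀ := Real.log_nonneg hN1'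
  set μ := Pool.Agent.H49.Ent.cond F.p B True with hμ
  have hμl : IsLaw μ := isLaw_cond F.isLaw hB
  set r := dbl μ (slam F wx) with hr
  have hrl : IsLaw r := isLaw_dbl hμl _
  have hμB : ∀ ω, 0 < μ ω → B ω := by
    intro ω h
    have := ((cond_pos_iff F.isLaw.nonneg B True ω).mp h).2
    rw [this]
    trivial
  have sup : ∀ v, 0 < r v → B v.1 ∧ B v.2 ∧ slam F wx v.1 = slam F wx v.2 := by
    intro v h
    have := (glue_pos_iff hμl.nonneg hμl.nonneg v).mp h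
    exact ⟨hμB _ this.1, hμB _ this.2.1, this.2.2⟩
  have rpos : ∀ v, r v ≠ 0 → 0 < r v := fun v h => lt_of_le_of_ne (hrl.nonneg v) (Ne.symm h)
  have lbT := hL.lbT
  have cxT := hL.cxT
  have hmul : ∀ {k l : ℕ} {y : ℝ}, |y| ≤ 2 / 2 ^ (k + l) → |2 ^ k * y| ≤ N₀ / 2 ^ l := by
    intro k l y hy
    rw [abs_mul, abs_of_pos (by positivity)]
    have h0 : (0 : ℝ) < 2 ^ k := by positivity
    calc (2 : ℝ) ^ k * |y| ≤ 2 ^ k * (2 / 2 ^ (k + l)) := mul_le_mul_of_nonneg_left hy h0.le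
      _ = 2 / 2 ^ l := by
        rw [pow_add]
        field_simp
      _ ≤ N₀ / 2 ^ l := div_le_div_of_nonneg_right (by linarith) (by positivity)
  have strp : ∀ {η η' : F.Ω} {b : ℝ}, ald D al η = ald D al η' →
      |fu (ς 0) (ς 1) b (F.x η) - fu (ς 0) (ς 1) b (F.x η')| ≤ 2 / 2 ^ (wx + q + D + n) →
      |(2 ^ (wx + q + D) * fu (ς 0) (ς 1) (ald D al η) (F.x η) -
        2 ^ (wx + q + D) * fu (ς 0) (ς 1) (ald D al η') (F.x η')) -
        2 ^ D * (b - ald D al η) * (2 ^ (wx + q) * F.x η (ς 0) - 2 ^ (wx + q) * F.x η' (ς 0))| ≤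
        N₀ / 2 ^ n := by
    intro η η' b ha hb
    have e1 : (2 ^ (wx + q + D) * fu (ς 0) (ς 1) (ald D al η) (F.x η) -
        2 ^ (wx + q + D) * fu (ς 0) (ς 1) (ald D al η') (F.x η')) -
        2 ^ D * (b - ald D al η) * (2 ^ (wx + q) * F.x η (ς 0) - 2 ^ (wx + q) * F.x η' (ς 0)) =
        2 ^ (wx + q + D) * (fu (ς 0) (ς 1) b (F.x η) - fu (ς 0) (ς 1) b (F.x η')) := by
      rw [← ha, pow_add 2 (wx + q) D]
      unfold fu
      ring
    rw [e1]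
    exact hmul hb
  have gbd : ∀ {η ω : F.Ω}, B η → B ω → slam F wx η = slam F wx ω →
      |2 ^ D * (a ω - ald D al η)| ≤ N₀ := by
    intro η ω b1 b2 e
    have s1 := hL.slo _ _ b1 b2 e
    have s2 := ald_near D al η
    have h0 : (0 : ℝ) < 2 ^ D := by positivity
    have s3 : |a ω - ald D al η| ≤ (3 * C + 1) / 2 ^ D := by
      have : (3 * C + 1) / 2 ^ D = 3 * C / 2 ^ D + 1 / 2 ^ D := by ring
      rw [this]
      rw [abs_le] at s1 s2 ⊢
      constructor <;> linarith [s1.1, s1.2, s2.1, s2.2]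
    rw [abs_mul, abs_of_pos h0]
    calc (2 : ℝ) ^ D * |a ω - ald D al η| ≤ 2 ^ D * ((3 * C + 1) / 2 ^ D) :=
          mul_le_mul_of_nonneg_left s3 h0.le
      _ = 3 * C + 1 := by field_simp
      _ ≤ N₀ := by linarith
  have hfl : ∀ (k l : ℕ) (y : ℝ), ⌊(2 : ℝ) ^ l * (2 ^ k * y)⌋ = ⌊(2 : ℝ) ^ (k + l) * y⌋ := by
    intro k l y
    rw [pow_add]
    congr 1
    ring
  have hm : ((wy - wx : ℕ) : ℝ) = (wy : ℝ) - wx := by
    push_cast [hxy]
    ring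
  have hM : ((J - wx : ℕ) : ℝ) = (J : ℝ) - wx := by
    have : wx ≤ J := by omega
    push_cast [this]
    ring
  have hone : ∀ {x y : ℝ}, ⌊x⌋ = ⌊y⌋ → |x - y| ≤ N₀ := fun h => (floor_same h).trans hN1'
  refine ⟨hrl, hN1', by positivity, ?_, by omega, by omega, ?_, ?_, ?_, ?_, ?_, ?_, ?_, ?_, ?_, ?_,
    ?_, ?_, ?_, ?_⟩
  · rw [div_le_one (by positivity)]
    exact one_le_pow₀ (by norm_num)
  · -- det
    intro v v' hv hv' hG hL
    have t := (lbT _ _ hG).1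
    have e := posn F (wx := wx) (wy := wx) (η := v.2) (ω := v.2) rfl
    have l1 : F.u v.2 = F.u v'.2 := (Prod.ext_iff.mp (Prod.ext_iff.mp hL).1).1
    have l2 : F.d v.2 = F.d v'.2 := (Prod.ext_iff.mp (Prod.ext_iff.mp hL).1).2
    unfold Fam.x Fam.t
    rw [l1, l2, t]
    exact ⟨rfl, rfl⟩
  · -- mov
    obtain ⟨f, hf⟩ := hL.tm
    refine ⟨f, ?_, ?_⟩
    · intro v hv
      obtain ⟨b1, b2, b3⟩ := sup v hv
      have t1 : F.T1 wx v.1 = F.T1 wx v.2 := (Prod.ext_iff.mp (Prod.ext_iff.mp b3).2).2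
      have := T_near (F := F) (wx := wx) (by omega) t1
      rw [hf]
      refine le_trans (le_of_eq ?_) (this.trans ?_)
      · congr 1
      · have h0 : (0 : ℝ) < 2 ^ (J - wx) := by positivity
        nlinarith
    · intro v v' hv hv' hG hS
      obtain ⟨b1, b2, b3⟩ := sup v hv
      obtain ⟨c1, c2, c3⟩ := sup v' hv'
      have t := (lbT _ _ hG).1
      have hS' : F.T v.1 = F.T v'.1 := by
        have : (F.T v.1 : ℤ) = F.T v'.1 := hS
        exact_mod_cast this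
      have l1 : F.u v.1 = F.u v.2 := (Prod.ext_iff.mp (Prod.ext_iff.mp b3).1).1
      have l2 : F.d v.1 = F.d v.2 := (Prod.ext_iff.mp (Prod.ext_iff.mp b3).1).2
      have l3 : F.u v'.1 = F.u v'.2 := (Prod.ext_iff.mp (Prod.ext_iff.mp c3).1).1
      have l4 : F.d v'.1 = F.d v'.2 := (Prod.ext_iff.mp (Prod.ext_iff.mp c3).1).2
      have hJ2 : (2 : ℝ) ^ J = 2 ^ wx * 2 ^ (J - wx) := by
        rw [← pow_add]
        congr 1
        omega
      have h0 : (2 ^ (wx + q) * F.x v.1 (ς 0) - 2 ^ (wx + q) * F.x v'.1 (ς 0)) -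
          ((2 ^ (wx + q) * F.x v.2 (ς 0) - 2 ^ (wx + q) * F.x v'.2 (ς 0)) +
          (((F.T v.1 : ℤ) : ℝ) - (F.T v.2 : ℝ)) / 2 ^ (J - wx) *
            (2 ^ q * F.d v.2 (ς 0) - 2 ^ q * F.d v'.2 (ς 0))) = 0 := by
        unfold Fam.x Fam.t
        rw [l1, l2, l3, l4, ← hS', ← t, hJ2, pow_add]
        push_cast
        field_simp
        ring
      have h00 : (0 : ℝ) ≤ N₀ / 2 ^ n := by positivity
      rw [hf]
      refine le_trans (le_of_eq ?_) h00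
      rw [abs_eq_zero]
      exact h0
  · -- vG
    intro v v' hv hv' hG
    have t := lbT _ _ hG
    refine ⟨hone t.2.2, ?_⟩
    have o := hL.own _ _ hG
    have : (2 : ℝ) ^ (wx + q) * F.x v.2 (ς 0) - 2 ^ (wx + q) * F.x v'.2 (ς 0) =
        2 ^ (wx + q) * (F.x v.2 (ς 0) - F.x v'.2 (ς 0)) := by ring
    rw [this]
    apply hmul
    rw [show wx + q + (wy - wx) = wy + q by omega]
    exact o
  · -- gG
    intro v v' hv hv' hG hc
    have t := lbT _ _ hG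
    have t' := cxT _ _ hc
    rw [t.2.1, t'.2.1]
  · -- sG
    intro v v' hv hv' hG hc
    obtain ⟨b1, b2, b3⟩ := sup v hv
    obtain ⟨c1, c2, c3⟩ := sup v' hv'
    have t' := cxT _ _ hc
    exact strp t'.2.1 (hL.two _ _ _ _ b3 c3 hG t'.1)
  · -- sz
    intro v v' hv hv' hc hz
    have t' := cxT _ _ hc
    refine ⟨strp t'.2.1 (hL.two _ _ _ _ rfl rfl hz t'.1), ?_⟩
    have o := hL.own _ _ hz
    have : (2 : ℝ) ^ (wx + q) * F.x v.1 (ς 0) - 2 ^ (wx + q) * F.x v'.1 (ς 0) =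
        2 ^ (wx + q) * (F.x v.1 (ς 0) - F.x v'.1 (ς 0)) := by ring
    rw [this]
    apply hmul
    rw [show wx + q + (wy - wx) = wy + q by omega]
    exact o
  · -- gB
    intro v hv
    obtain ⟨b1, b2, b3⟩ := sup v hv
    exact ⟨gbd b1 b2 b3, gbd b1 b1 rfl⟩
  · -- cS
    intro v v' hv hv' hc
    have t' := cxT _ _ hc
    rw [t'.1]
  · -- cB
    intro v v' hv hv' hc
    have t' := cxT _ _ hc
    exact hone t'.2.2
  · -- cN
    have hc := hL.num _ r (fun v => v.1) (fun v => v.2) (fun v h => sup v (rpos v h))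
    exact ⟨vals r (fun v => ctx v.1) (fun v => (lab v.2, (F.T v.1 : ℤ))), hc,
      fun v hv => mem_vals (fun v => ctx v.1) (fun v => (lab v.2, (F.T v.1 : ℤ))) hv.ne'⟩
  · -- f1
    rw [hm]
    simp_rw [hfl]
    have e1 := CH_snd hμl (slam F wx) (fun ω => ⌊(2 : ℝ) ^ (wx + q + n) * F.x ω (ς 0)⌋) lab
    rw [hr, e1]
    linarith
  · -- f2
    rw [hM]
    have e1 : CH μ F.T (slam F wx) ≤ CH μ (fun ω => (F.T ω : ℤ)) (slam F wx) :=
      CH_mono_left hμl.nonneg (fun ω ω' _ _ h => by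
        have : (F.T ω : ℤ) = F.T ω' := (Prod.ext_iff.mp h).1
        exact Int.ofNat_inj.mp this)
    have e2 := CH_mid hμl (slam F wx) (fun ω => (F.T ω : ℤ)) lab
    linarith
  · -- f3
    rw [hm]
    simp_rw [hfl]
    have e1 := CH_fst hμl (slam F wx) (fun ω => ⌊(2 : ℝ) ^ (wx + q + n) * F.x ω (ς 0)⌋) lab
    have e2 := CH_le_add hrl.nonneg (fun v => ⌊(2 : ℝ) ^ (wx + q + n) * F.x v.1 (ς 0)⌋)
      (fun v => ctx v.1) (fun v => lab v.1)
    have e3 : CH r (fun v => ctx v.1) (fun v => lab v.1) ≤ Real.log N₀ := by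
      have hc := hL.num _ r (fun v => v.1) (fun v => v.1)
        (fun v h => ⟨(sup v (rpos v h)).1, (sup v (rpos v h)).1, rfl⟩)
      refine le_trans ?_ (cnt_CH hrl hN1' hc)
      refine CH_mono_cond hrl.nonneg (fun v v' hv hv' h => ?_)
      refine Prod.ext h ?_
      show (F.T v.1 : ℤ) = F.T v'.1
      rw [(lbT _ _ h).1]
    rw [hr] at e2 e3 ⊢
    rw [e1] at e2
    linarith
  · -- tur
    refine le_trans ?_ h3
    rw [Pr_sum, Pr_sum]
    refine Finset.sum_le_sum fun v _ => ?_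
    by_cases hv : r v = 0
    · rw [hv]
      simp
    · obtain ⟨b1, b2, b3⟩ := sup v (rpos v hv)
      by_cases hm1 : v ∈ {v : F.Ω × F.Ω | |2 ^ D * (a v.2 - ald D al v.1) -
          2 ^ D * (a v.1 - ald D al v.1)| < 1 / 2 ^ (g + 1)}
      · have hm2 : v ∈ {v : F.Ω × F.Ω | |al v.1 - al v.2| ≤ 1 / 2 ^ (D + g)} := by
          show |al v.1 - al v.2| ≤ 1 / 2 ^ (D + g)
          have i1 : |2 ^ D * (a v.2 - ald D al v.1) - 2 ^ D * (a v.1 - ald D al v.1)| <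
            1 / 2 ^ (g + 1) := hm1
          rw [show 2 ^ D * (a v.2 - ald D al v.1) - 2 ^ D * (a v.1 - ald D al v.1) =
            2 ^ D * (a v.2 - a v.1) by ring, abs_mul, abs_of_pos (by positivity)] at i1
          have i2 : |a v.2 - a v.1| < 1 / 2 ^ (D + g + 1) := by
            rw [show D + g + 1 = D + (g + 1) by ring, pow_add]
            rw [lt_div_iff₀ (by positivity)] at i1 ⊢
            nlinarith
          have i3 := near v.1 b1
          have i4 := near v.2 b2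
          have i5 : C / 2 ^ (D + n) + C / 2 ^ (D + n) ≤ 1 / 2 ^ (D + g + 1) := by
            have j1 : C / 2 ^ (D + n) + C / 2 ^ (D + n) = 2 * C / 2 ^ (D + n) := by ring
            rw [j1, div_le_div_iff₀ (by positivity) (by positivity), pow_add 2 D n,
              show D + g + 1 = D + (g + 1) by ring, pow_add 2 D (g + 1), pow_succ]
            have h0 : (0 : ℝ) < 2 ^ D := by positivity
            nlinarith
          have i6 : (1 : ℝ) / 2 ^ (D + g) = 1 / 2 ^ (D + g + 1) + 1 / 2 ^ (D + g + 1) := by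
            rw [pow_succ]
            field_simp
            norm_num
          rw [i6]
          have i2' := i2.le
          rw [abs_le] at i3 i4 i2' ⊢
          constructor <;> linarith [i3.1, i3.2, i4.1, i4.2, i2'.1, i2'.2]
        rw [if_pos hm1, if_pos hm2]
      · rw [if_neg hm1]
        split_ifs
        · exact hrl.nonneg v
        · exact le_rfl

end abs

end Pool.LX
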