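import Pool.Agent.H86.LX.Energy

/-!
# The number of the values of a variable on the fibres of another variable
-/

set_option autoImplicit false

namespace Pool.LX

open Finset Real
open Pool.Agent.H49.Ent Pool.Agent.H32.Dense Pool.STK Pool.KAF

variable {Ω S T U : Type} [Fintype Ω]

/-- `X` has at most `N` values on the fibres of `Y`. -/
def cnt (p : Ω → ℝ) (X : Ω → S) (Y : Ω → T) (N : ℝ) : Prop :=
  ∀ y, ((vals p X Y y).card : ℝ) ≤ N

theorem vals_mem {p : Ω → ℝ} {X : Ω → S} {Y : Ω → T} {ω : Ω} {y : T} (h : p ω ≠ 0)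
    (hy : Y ω = y) : X ω ∈ vals p X Y y := by
  rw [← hy]
  exact mem_vals X Y h

theorem cnt_det {p : Ω → ℝ} {X : Ω → S} {Y : Ω → T}
    (h : ∀ ω ω', p ω ≠ 0 → p ω' ≠ 0 → Y ω = Y ω' → X ω = X ω') : cnt p X Y 1 := by
  intro y
  have : (vals p X Y y).card ≤ 1 := by
    rw [Finset.card_le_one]
    intro a ha b hb
    obtain ⟨w, a1, a2, a3⟩ := of_mem_vals ha
    obtain ⟨w', b1, b2, b3⟩ := of_mem_vals hb
    rw [← a3, ← b3]
    exact h _ _ a1 b1 (a2.trans b2.symm)
  exact_mod_cast this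

/-- One integer more. -/
theorem cnt_step {p : Ω → ℝ} {X : Ω → S} {Y : Ω → T} (i : Ω → ℤ) {K N : ℝ} (hK : 0 ≤ K)
    (hN : 0 ≤ N) (hi : ∀ ω ω', p ω ≠ 0 → p ω' ≠ 0 → Y ω = Y ω' → ((i ω : ℝ) - i ω') ≤ K)
    (h : cnt p X (fun ω => (Y ω, i ω)) N) : cnt p X Y ((K + 1) * N) := by
  classical
  intro y
  have h1 : vals p X Y y ⊆ (vals p i Y y).biUnion
      (fun j => vals p X (fun ω => (Y ω, i ω)) (y, j)) := by
    intro a ha
    obtain ⟨w, a1, a2, a3⟩ := of_mem_vals ha
    rw [Finset.mem_biUnion]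
    refine ⟨i w, vals_mem a1 a2, ?_⟩
    rw [← a3]
    exact vals_mem a1 (Prod.ext a2 rfl)
  have h2 : ((vals p i Y y).card : ℝ) ≤ K + 1 := by
    refine card_diam _ hK ?_
    intro a ha b hb
    obtain ⟨w, a1, a2, a3⟩ := of_mem_vals ha
    obtain ⟨w', b1, b2, b3⟩ := of_mem_vals hb
    rw [← a3, ← b3]
    exact hi _ _ a1 b1 (a2.trans b2.symm)
  have h3 : ((vals p X Y y).card : ℝ) ≤
      ∑ j ∈ vals p i Y y, ((vals p X (fun ω => (Y ω, i ω)) (y, j)).card : ℝ) := by
    have := (Finset.card_le_card h1).trans Finset.card_biUnion_le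
    exact_mod_cast this
  refine h3.trans ((Finset.sum_le_sum fun j _ => h (y, j)).trans ?_)
  rw [Finset.sum_const, nsmul_eq_mul]
  exact mul_le_mul_of_nonneg_right h2 hN

theorem cnt.mono {p : Ω → ℝ} {X : Ω → S} {Y : Ω → T} {N N' : ℝ} (h : cnt p X Y N) (hN : N ≤ N') :
    cnt p X Y N' := fun y => (h y).trans hN

theorem cnt_CH {p : Ω → ℝ} (hp : IsLaw p) {X : Ω → S} {Y : Ω → T} {N : ℝ} (hN : 1 ≤ N)
    (h : cnt p X Y N) : CH p X Y ≤ Real.log N := by
  classical
  have h1 := CH_eq_neg_sum hp.nonneg X Y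
  have h2 := inv_dn hp X Y (vals p X Y) (fun ω hω => mem_vals X Y hω) (fun ω _ => h (Y ω))
  rw [h1]
  unfold Ex
  have h3 : ∀ ω, p ω * -Real.log (law p (fun ω => (X ω, Y ω)) (X ω, Y ω) / law p Y (Y ω)) ≤
      p ω * (Real.log N - 1) +
        1 / N * (p ω * (law p Y (Y ω) / law p (fun ω => (X ω, Y ω)) (X ω, Y ω))) := by
    intro ω
    by_cases h0 : p ω = 0
    · rw [h0]; simp
    · have h0' : 0 < p ω := lt_of_le_of_ne (hp.nonneg ω) (Ne.symm h0)
      have a1 := law_pos hp.nonneg (fun ω => (X ω, Y ω)) h0'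
      have a2 := law_pos hp.nonneg Y h0'
      set a := law p (fun ω => (X ω, Y ω)) (X ω, Y ω)
      set b := law p Y (Y ω)
      have hN0 : 0 < N := by linarith
      have h6 := Real.log_le_sub_one_of_pos (x := b / a / N) (by positivity)
      rw [Real.log_div (by positivity) hN0.ne'] at h6
      have h7 : -Real.log (a / b) = Real.log (b / a) := by
        rw [← Real.log_inv, inv_div]
      have h8 : b / a / N = 1 / N * (b / a) := by ring
      rw [h7]
      have h9 : Real.log (b / a) ≤ Real.log N - 1 + 1 / N * (b / a) := by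
        rw [h8] at h6
        linarith
      calc p ω * Real.log (b / a) ≤ p ω * (Real.log N - 1 + 1 / N * (b / a)) :=
            mul_le_mul_of_nonneg_left h9 h0'.le
        _ = _ := by ring
  refine (Finset.sum_le_sum fun ω _ => h3 ω).trans ?_
  rw [Finset.sum_add_distrib, ← Finset.sum_mul, hp.sum_one, one_mul, ← Finset.mul_sum]
  have hN0 : 0 < N := by linarith
  have h4 : 1 / N * ∑ ω, p ω * (law p Y (Y ω) / law p (fun ω => (X ω, Y ω)) (X ω, Y ω)) ≤ 1 := by
    calc _ ≤ 1 / N * N := mul_le_mul_of_nonneg_left h2 (by positivity)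
      _ = 1 := by field_simp
  linarith

end Pool.LX
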