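import Pool.Agent.H86.LX.Energy
import Pool.Agent.H32.Dense.Marg

/-!
# LEMMA X: the collisions
-/

set_option autoImplicit false

namespace Pool.LX

open Finset Real
open Pool.Agent.H49.Ent Pool.Agent.H32.Dense Pool.STK Pool.KAF

section gen

variable {Ω T U V : Type} [Fintype Ω]

/-- The weight of `w` given the label of `ω`, restricted to the event `E`. -/
noncomputable def fw (p : Ω → ℝ) (Z : Ω → T) (E : Set Ω) (ω w : Ω) : ℝ :=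
  open Classical in if Z w = Z ω ∧ w ∈ E then p w / law p Z (Z ω) else 0

theorem fw_nonneg {p : Ω → ℝ} (hp : ∀ ω, 0 ≤ p ω) (Z : Ω → T) (E : Set Ω) (ω w : Ω) :
    0 ≤ fw p Z E ω w := by
  unfold fw
  split_ifs
  · exact div_nonneg (hp _) (law_nonneg hp _ _)
  · exact le_rfl

theorem fw_pos {p : Ω → ℝ} {Z : Ω → T} {E : Set Ω} {ω w : Ω} (h : fw p Z E ω w ≠ 0) :
    Z w = Z ω ∧ w ∈ E ∧ p w ≠ 0 := by
  unfold fw at h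
  split_ifs at h with h1
  · refine ⟨h1.1, h1.2, fun h0 => ?_⟩
    rw [h0, zero_div] at h
    exact h rfl
  · exact absurd rfl h

theorem res_glue (p : Ω → ℝ) (Z : Ω → T) (E₁ E₃ : Set Ω) (ω w : Ω) :
    res (glue p p Z Z) {W | W.1 ∈ E₁ ∧ W.2 ∈ E₃} (ω, w) = res p E₁ ω * fw p Z E₃ ω w := by
  classical
  unfold res fw glue
  simp only [Set.mem_setOf_eq]
  by_cases h1 : ω ∈ E₁ <;> by_cases h2 : w ∈ E₃ <;> by_cases h3 : Z ω = Z w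
  · rw [if_pos ⟨h1, h2⟩, if_pos h3, if_pos h1, if_pos ⟨h3.symm, h2⟩]; ring
  · rw [if_pos ⟨h1, h2⟩, if_neg h3, if_pos h1, if_neg (fun e => h3 e.1.symm)]; ring
  · rw [if_neg (fun e : ω ∈ E₁ ∧ w ∈ E₃ => h2 e.2),
      if_neg (fun e : Z w = Z ω ∧ w ∈ E₃ => h2 e.2)]; ring
  · rw [if_neg (fun e : ω ∈ E₁ ∧ w ∈ E₃ => h2 e.2),
      if_neg (fun e : Z w = Z ω ∧ w ∈ E₃ => h2 e.2)]; ring
  · rw [if_neg (fun e : ω ∈ E₁ ∧ w ∈ E₃ => h1 e.1), if_neg h1]; ring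
  · rw [if_neg (fun e : ω ∈ E₁ ∧ w ∈ E₃ => h1 e.1), if_neg h1]; ring
  · rw [if_neg (fun e : ω ∈ E₁ ∧ w ∈ E₃ => h1 e.1), if_neg h1]; ring
  · rw [if_neg (fun e : ω ∈ E₁ ∧ w ∈ E₃ => h1 e.1), if_neg h1]; ring

/-- The weight of one cell. -/
theorem fw_cell [DecidableEq U] {p : Ω → ℝ} (hp : ∀ ω, 0 ≤ p ω) (Z : Ω → T) (Y : Ω → U)
    (E : Set Ω) {κ : ℝ} (hκ : 0 ≤ κ)
    (hE : ∀ ω ∈ E, law p (fun ω => (Y ω, Z ω)) (Y ω, Z ω) ≤ κ * law p Z (Z ω)) {ω : Ω}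
    (hω : 0 < p ω) (A : U) : ∑ w, (if Y w = A then fw p Z E ω w else 0) ≤ κ := by
  classical
  have hl := law_pos hp Z hω
  by_cases h : ∃ w, Y w = A ∧ fw p Z E ω w ≠ 0
  · obtain ⟨w₀, h1, h2⟩ := h
    obtain ⟨h3, h4, _⟩ := fw_pos h2
    have h5 := hE w₀ h4
    have h6 : ∑ w, (if Y w = A then fw p Z E ω w else 0) ≤
        law p (fun ω => (Y ω, Z ω)) (A, Z ω) / law p Z (Z ω) := by
      unfold law
      rw [Finset.sum_div]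
      refine Finset.sum_le_sum fun w _ => ?_
      by_cases h7 : Y w = A
      · rw [if_pos h7]
        unfold fw
        by_cases h8 : Z w = Z ω
        · rw [if_pos (show ((Y w, Z w) = (A, Z ω)) by rw [h7, h8])]
          by_cases h9 : w ∈ E
          · rw [if_pos ⟨h8, h9⟩]
            exact le_rfl
          · rw [if_neg (fun e => h9 e.2)]
            exact div_nonneg (hp _) hl.le
        · rw [if_neg (fun e => h8 e.1), if_neg (fun e => h8 (Prod.ext_iff.mp e).2), zero_div]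
      · rw [if_neg h7, if_neg (fun e => h7 (Prod.ext_iff.mp e).1), zero_div]
    refine h6.trans ?_
    rw [div_le_iff₀ hl, ← h3, ← h1]
    exact h5
  · push Not at h
    rw [Finset.sum_eq_zero]
    · exact hκ
    · intro w _
      by_cases h7 : Y w = A
      · rw [if_pos h7, h w h7]
      · rw [if_neg h7]

end gen

section

variable {Ω 𝒢 Λ 𝒞 𝒵 : Type} [Fintype Ω] {p : Ω → ℝ} {G : Ω → 𝒢}
    {L : Ω → Λ} {S : Ω → ℤ} {c : Ω → 𝒞} {z : Ω → 𝒵} {X v x u g g' : Ω → ℝ} {n m M : ℕ}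
    {B γ d ε₀ : ℝ}

/-- Collisions of two strips. -/
theorem inn (D : XD p G L S c z X v x u g g' n m M B γ d ε₀) {C₃ : ℝ}
    (h3 : ∀ (n : ℕ) (γ x₁ x₂ u₁ u₂ g g₁ g₂ : ℝ) (F : Finset ℤ),
    0 < γ → γ ≤ 1 → |g| ≤ B → |g₁| ≤ B → |g₂| ≤ B → γ ≤ |g - g₁| → γ ≤ |g - g₂| →
    |x₁ - x₂| ≤ B → |(u₁ - u₂) - g * (x₁ - x₂)| ≤ B / 2 ^ n →
    (∀ A ∈ F, ∃ y₁ y₂ w₁ w₂ : ℝ, ⌊(2 : ℝ) ^ n * y₁⌋ = A ∧ ⌊(2 : ℝ) ^ n * y₂⌋ = A ∧
      ⌊(2 : ℝ) ^ n * w₁⌋ = ⌊(2 : ℝ) ^ n * w₂⌋ ∧ |y₁ - x₁| ≤ B ∧ |y₂ - x₂| ≤ B ∧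
      |(w₁ - u₁) - g₁ * (y₁ - x₁)| ≤ B / 2 ^ n ∧ |(w₂ - u₂) - g₂ * (y₂ - x₂)| ≤ B / 2 ^ n) →
    (F.card : ℝ) ≤ C₃ * pd n (x₁ - x₂) / γ)
    {κx : ℝ} (hκx : 0 ≤ κx) (E₁ E₃ : Set Ω)
    (hγ : ∀ ω ∈ E₁, γ ≤ |g ω - g' ω|)
    (hE : ∀ ω ∈ E₃, law p (fun ω => (⌊(2 : ℝ) ^ n * x ω⌋, (c ω, z ω)))
      (⌊(2 : ℝ) ^ n * x ω⌋, (c ω, z ω)) ≤ κx * law p (fun ω => (c ω, z ω)) (c ω, z ω))
    {ω₁ ω₂ : Ω} (h1 : 0 < p ω₁) (h2 : 0 < p ω₂) (h1E : ω₁ ∈ E₁) (h2E : ω₂ ∈ E₁)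
    (hG : G ω₁ = G ω₂) (hc : c ω₁ = c ω₂) :
    ∑ w₁, ∑ w₂, (open Classical in if ⌊(2 : ℝ) ^ n * x w₂⌋ = ⌊(2 : ℝ) ^ n * x w₁⌋ ∧
      ⌊(2 : ℝ) ^ n * u w₂⌋ = ⌊(2 : ℝ) ^ n * u w₁⌋ then
        fw p (fun ω => (c ω, z ω)) E₃ ω₁ w₁ * fw p (fun ω => (c ω, z ω)) E₃ ω₂ w₂ else 0) ≤
      κx * κx * (C₃ * pd n (x ω₁ - x ω₂) / γ) := by
  classical
  have hB := D.B1
  have hp := D.law
  have hpos : ∀ ω, p ω ≠ 0 → 0 < p ω := fun ω h => lt_of_le_of_ne (hp.nonneg ω) (Ne.symm h)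
  set cz : Ω → 𝒞 × 𝒵 := fun ω => (c ω, z ω) with hcz
  set cx : Ω → ℤ := fun ω => ⌊(2 : ℝ) ^ n * x ω⌋ with hcx
  set cu : Ω → ℤ := fun ω => ⌊(2 : ℝ) ^ n * u ω⌋ with hcu
  set f₁ : Ω → ℝ := fw p cz E₃ ω₁ with hf₁
  set f₂ : Ω → ℝ := fw p cz E₃ ω₂ with hf₂
  have f10 : ∀ w, 0 ≤ f₁ w := fw_nonneg hp.nonneg cz E₃ ω₁
  have f20 : ∀ w, 0 ≤ f₂ w := fw_nonneg hp.nonneg cz E₃ ω₂
  set F : Finset ℤ := (univ.filter (fun w₁ => f₁ w₁ ≠ 0 ∧ ∃ w₂, f₂ w₂ ≠ 0 ∧ cx w₂ = cx w₁ ∧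
    cu w₂ = cu w₁)).image cx with hF
  have hcard : (F.card : ℝ) ≤ C₃ * pd n (x ω₁ - x ω₂) / γ := by
    refine h3 n γ (x ω₁) (x ω₂) (u ω₁) (u ω₂) (g ω₁) (g' ω₁) (g' ω₂) F D.γ0 D.γ1
      (D.gB _ h1).1 (D.gB _ h1).2 (D.gB _ h2).2 (hγ _ h1E) ?_ (D.cB _ _ h1 h2 hc)
      (D.sG _ _ h1 h2 hG hc) ?_
    · rw [D.gG _ _ h1 h2 hG hc]
      exact hγ _ h2E
    · intro A hA
      obtain ⟨w₁, b1, b2⟩ := Finset.mem_image.mp hA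
      obtain ⟨b3, w₂, b4, b5, b6⟩ := (Finset.mem_filter.mp b1).2
      obtain ⟨a1, _, a3⟩ := fw_pos b3
      obtain ⟨a4, _, a6⟩ := fw_pos b4
      rw [hcz] at a1 a4
      have e1 := Prod.ext_iff.mp a1
      have e2 := Prod.ext_iff.mp a4
      have s1 := D.sz ω₁ w₁ h1 (hpos _ a3) e1.1.symm e1.2.symm
      have s2 := D.sz ω₂ w₂ h2 (hpos _ a6) e2.1.symm e2.2.symm
      have hm : ∀ y : ℝ, y ≤ B / 2 ^ m → y ≤ B := fun y hy =>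
        hy.trans (div_le_self (by linarith) (one_le_pow₀ (by norm_num)))
      refine ⟨x w₁, x w₂, u w₁, u w₂, b2, b5.trans b2, b6.symm, ?_, ?_, ?_, ?_⟩
      · rw [abs_sub_comm]
        exact hm _ s1.2
      · rw [abs_sub_comm]
        exact hm _ s2.2
      · rw [← abs_neg, show -((u w₁ - u ω₁) - g' ω₁ * (x w₁ - x ω₁)) =
          (u ω₁ - u w₁) - g' ω₁ * (x ω₁ - x w₁) by ring]
        exact s1.1
      · rw [← abs_neg, show -((u w₂ - u ω₂) - g' ω₂ * (x w₂ - x ω₂)) =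
          (u ω₂ - u w₂) - g' ω₂ * (x ω₂ - x w₂) by ring]
        exact s2.1
  have hle : ∀ w₁ w₂, (if cx w₂ = cx w₁ ∧ cu w₂ = cu w₁ then f₁ w₁ * f₂ w₂ else 0) ≤
      ∑ A ∈ F, (if cx w₁ = A then f₁ w₁ else 0) * (if cx w₂ = A then f₂ w₂ else 0) := by
    intro w₁ w₂
    have hnn : ∀ A ∈ F, 0 ≤ (if cx w₁ = A then f₁ w₁ else 0) * (if cx w₂ = A then f₂ w₂ else 0) := by
      intro A _
      refine mul_nonneg ?_ ?_
      · split_ifs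
        · exact f10 _
        · exact le_rfl
      · split_ifs
        · exact f20 _
        · exact le_rfl
    by_cases h : (cx w₂ = cx w₁ ∧ cu w₂ = cu w₁) ∧ f₁ w₁ ≠ 0 ∧ f₂ w₂ ≠ 0
    · rw [if_pos h.1]
      have hA : cx w₁ ∈ F := by
        rw [hF]
        exact Finset.mem_image_of_mem cx (Finset.mem_filter.mpr ⟨Finset.mem_univ _, h.2.1, w₂,
          h.2.2, h.1.1, h.1.2⟩)
      refine le_trans (le_of_eq ?_) (Finset.single_le_sum hnn hA)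
      rw [if_pos rfl, if_pos h.1.1]
    · have h0 : (if cx w₂ = cx w₁ ∧ cu w₂ = cu w₁ then f₁ w₁ * f₂ w₂ else 0) = 0 := by
        split_ifs with h4
        · by_contra h5
          exact h ⟨h4, fun h6 => h5 (by rw [h6, zero_mul]), fun h6 => h5 (by rw [h6, mul_zero])⟩
        · rfl
      rw [h0]
      exact Finset.sum_nonneg hnn
  have c1 : ∀ A, ∑ w, (if cx w = A then f₁ w else 0) ≤ κx := fun A =>
    fw_cell hp.nonneg cz cx E₃ hκx hE h1 A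
  have c2 : ∀ A, ∑ w, (if cx w = A then f₂ w else 0) ≤ κx := fun A =>
    fw_cell hp.nonneg cz cx E₃ hκx hE h2 A
  calc ∑ w₁, ∑ w₂, (if cx w₂ = cx w₁ ∧ cu w₂ = cu w₁ then f₁ w₁ * f₂ w₂ else 0) ≤
      ∑ w₁, ∑ w₂, ∑ A ∈ F, (if cx w₁ = A then f₁ w₁ else 0) * (if cx w₂ = A then f₂ w₂ else 0) :=
        Finset.sum_le_sum fun w₁ _ => Finset.sum_le_sum fun w₂ _ => hle w₁ w₂
    _ = ∑ A ∈ F, (∑ w₁, (if cx w₁ = A then f₁ w₁ else 0)) *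
        (∑ w₂, (if cx w₂ = A then f₂ w₂ else 0)) := by
        simp_rw [Finset.sum_mul_sum]
        rw [Finset.sum_comm (s := F)]
        refine Finset.sum_congr rfl fun w₁ _ => ?_
        rw [Finset.sum_comm (s := F)]
    _ ≤ ∑ A ∈ F, κx * κx := by
        refine Finset.sum_le_sum fun A _ => ?_
        refine mul_le_mul (c1 A) (c2 A) (Finset.sum_nonneg fun w _ => ?_) hκx
        split_ifs
        · exact f20 _
        · exact le_rfl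
    _ = κx * κx * F.card := by
        rw [Finset.sum_const, nsmul_eq_mul]; ring
    _ ≤ _ := mul_le_mul_of_nonneg_left hcard (mul_nonneg hκx hκx)

end

end Pool.LX
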