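import Pool.Agent.H86.LX.Tools

/-!
# LEMMA X: the energy of the pairs at the time `t'`
-/

set_option autoImplicit false

namespace Pool.LX

open Finset Real
open Pool.Agent.H49.Ent Pool.Agent.H32.Dense Pool.STK Pool.KAF

section gen

variable {Ω S T : Type} [Fintype Ω]

/-- The values of `X` on the fibre `C = c`. -/
noncomputable def vals (p : Ω → ℝ) (X : Ω → S) (C : Ω → T) (c : T) : Finset S :=
  open Classical in (univ.filter (fun ω => p ω ≠ 0 ∧ C ω = c)).image X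

theorem mem_vals {p : Ω → ℝ} (X : Ω → S) (C : Ω → T) {ω : Ω} (h : p ω ≠ 0) :
    X ω ∈ vals p X C (C ω) := by
  classical
  unfold vals
  exact Finset.mem_image_of_mem X (Finset.mem_filter.mpr ⟨Finset.mem_univ _, h, rfl⟩)

theorem of_mem_vals {p : Ω → ℝ} {X : Ω → S} {C : Ω → T} {c : T} {s : S}
    (h : s ∈ vals p X C c) : ∃ ω, p ω ≠ 0 ∧ C ω = c ∧ X ω = s := by
  classical
  unfold vals at h
  obtain ⟨ω, h1, h2⟩ := Finset.mem_image.mp h
  exact ⟨ω, (Finset.mem_filter.mp h1).2.1, (Finset.mem_filter.mp h1).2.2, h2⟩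

/-- Change of measure, for functions of the label. -/
theorem cm' {p : Ω → ℝ} (hp : ∀ ω, 0 ≤ p ω) (X : Ω → S) (C : Ω → T) {κ : ℝ} (hκ : 0 ≤ κ)
    (h : Ω → S → ℝ) (h0 : ∀ ω s, 0 ≤ h ω s)
    (hd : ∀ ω ω', p ω ≠ 0 → p ω' ≠ 0 → C ω = C ω' → h ω = h ω') (E : Set Ω)
    (hE : ∀ ω ∈ E, law p (fun ω => (X ω, C ω)) (X ω, C ω) ≤ κ * law p C (C ω)) :
    ∑ ω, res p E ω * h ω (X ω) ≤ κ * ∑ ω, p ω * ∑ s ∈ vals p X C (C ω), h ω s := by
  classical
  set hh : T → S → ℝ := fun c s =>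
    if hc : ∃ ω, p ω ≠ 0 ∧ C ω = c then h hc.choose s else 0 with hhh
  have e1 : ∀ ω, p ω ≠ 0 → ∀ s, hh (C ω) s = h ω s := by
    intro ω hω s
    have hc : ∃ ω', p ω' ≠ 0 ∧ C ω' = C ω := ⟨ω, hω, rfl⟩
    rw [hhh]
    simp only [dif_pos hc]
    rw [hd _ _ hc.choose_spec.1 hω hc.choose_spec.2]
  have e0 : ∀ c s, 0 ≤ hh c s := by
    intro c s
    rw [hhh]
    dsimp only
    split_ifs
    · exact h0 _ _
    · exact le_rfl
  have h1 := cm (p := p) X C (vals p X C) (fun ω hω => mem_vals X C hω)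
    (fun c s => if law p (fun ω => (X ω, C ω)) (s, c) ≤ κ * law p C c then hh c s else 0)
    (fun c s => κ * hh c s) (by
      intro c s _
      split_ifs with h2
      · have := mul_le_mul_of_nonneg_left h2 (e0 c s)
        linarith
      · rw [zero_mul]
        exact mul_nonneg (mul_nonneg hκ (e0 _ _)) (law_nonneg hp _ _))
  refine le_trans (Finset.sum_le_sum fun ω _ => ?_) (h1.trans (le_of_eq ?_))
  · by_cases hω : p ω = 0
    · have : res p E ω = 0 := le_antisymm ((res_le hp _ ω).trans hω.le) (res_nonneg hp _ ω)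
      rw [this, hω, zero_mul, zero_mul]
    · unfold res
      by_cases h2 : ω ∈ E
      · rw [if_pos h2, if_pos (hE ω h2), e1 ω hω]
      · rw [if_neg h2, zero_mul]
        refine mul_nonneg (hp ω) ?_
        split_ifs
        · exact e0 _ _
        · exact le_rfl
  · rw [Finset.mul_sum]
    refine Finset.sum_congr rfl fun ω _ => ?_
    by_cases hω : p ω = 0
    · rw [hω, zero_mul, zero_mul, mul_zero]
    · rw [← Finset.mul_sum]
      simp_rw [e1 ω hω]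
      ring

theorem card_diam (F : Finset ℤ) {D : ℝ} (hD : 0 ≤ D)
    (h : ∀ a ∈ F, ∀ b ∈ F, ((a : ℝ) - b) ≤ D) : (F.card : ℝ) ≤ D + 1 := by
  rcases F.eq_empty_or_nonempty with rfl | hne
  · simp; linarith
  · have h1 : F ⊆ Finset.Icc (F.min' hne) (F.max' hne) :=
      fun a ha => Finset.mem_Icc.mpr ⟨F.min'_le a ha, F.le_max' a ha⟩
    have h2 := Finset.card_le_card h1
    rw [Int.card_Icc] at h2
    have h3 := h _ (F.max'_mem hne) _ (F.min'_mem hne)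
    have h4 : F.min' hne ≤ F.max' hne := F.min'_le _ (F.max'_mem hne)
    have h5 : (((F.max' hne + 1 - F.min' hne).toNat : ℤ) : ℝ) =
        (F.max' hne : ℝ) + 1 - F.min' hne := by
      rw [Int.toNat_of_nonneg (by omega)]
      push_cast
      ring
    have h6 : (F.card : ℝ) ≤ ((F.max' hne + 1 - F.min' hne).toNat : ℝ) := by exact_mod_cast h2
    have h7 : (((F.max' hne + 1 - F.min' hne).toNat : ℤ) : ℝ) =
        ((F.max' hne + 1 - F.min' hne).toNat : ℝ) := by push_cast; rfl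
    linarith

theorem floor_diff (a b : ℝ) : ((⌊a⌋ : ℝ) - ⌊b⌋) ≤ a - b + 1 := by
  have h1 := Int.floor_le a
  have h2 := Int.lt_floor_add_one b
  linarith

theorem floor_same {a b : ℝ} (h : ⌊a⌋ = ⌊b⌋) : |a - b| ≤ 1 := by
  have h1 := Int.floor_le a
  have h2 := Int.lt_floor_add_one a
  have h3 := Int.floor_le b
  have h4 := Int.lt_floor_add_one b
  rw [h] at h1 h2
  rw [abs_le]
  constructor <;> linarith

/-- Sum of a function of the label over a fibre. -/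
theorem sum_fib (p : Ω → ℝ) (C : Ω → T) (c : T) [DecidableEq T] (a : ℝ) :
    ∑ ω, p ω * (if C ω = c then a else 0) = law p C c * a := by
  unfold law
  rw [Finset.sum_mul]
  refine Finset.sum_congr rfl fun ω _ => ?_
  by_cases h : C ω = c
  · rw [if_pos h, if_pos h]
  · rw [if_neg h, if_neg h]; ring

end gen

section en

variable {Ω 𝒢 Λ 𝒞 𝒵 : Type} [Fintype Ω] {p : Ω → ℝ} {G : Ω → 𝒢}
    {L : Ω → Λ} {S : Ω → ℤ} {c : Ω → 𝒞} {z : Ω → 𝒵} {X v x u g g' : Ω → ℝ} {n m M : ℕ}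
    {B γ d ε₀ : ℝ}

/-- Energy of the positions at the time `t`. -/
theorem en1 (D : XD p G L S c z X v x u g g' n m M B γ d ε₀) {C₂ : ℝ} (hC₂ : 0 < C₂)
    (h2 : ∀ (n : ℕ) (x : ℝ) (F : Finset ℤ) (y : ℤ → ℝ),
      (∀ A ∈ F, ⌊(2 : ℝ) ^ n * y A⌋ = A ∧ |x - y A| ≤ B) →
      ∑ A ∈ F, pd n (x - y A) ≤ C₂ * 2 ^ n * (n + 1))
    {κ : ℝ} (hκ : 0 ≤ κ) (E : Set Ω)
    (hE : ∀ ω ∈ E, law p (fun ω => (⌊(2 : ℝ) ^ n * X ω⌋, G ω)) (⌊(2 : ℝ) ^ n * X ω⌋, G ω) ≤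
      κ * law p G (G ω)) [DecidableEq 𝒢] (ω₁ : Ω) (h1 : p ω₁ ≠ 0) :
    ∑ ω₂, res p E ω₂ * (if G ω₂ = G ω₁ then pd n (X ω₁ - X ω₂) else 0) ≤
      law p G (G ω₁) * (2 * κ * C₂ * 2 ^ n * (n + 1)) := by
  classical
  have hB := D.B1
  have hp := D.law
  have hpos : ∀ ω, p ω ≠ 0 → 0 < p ω := fun ω h => lt_of_le_of_ne (hp.nonneg ω) (Ne.symm h)
  set cA : Ω → ℤ := fun ω => ⌊(2 : ℝ) ^ n * X ω⌋ with hcA
  -- a representative of the cell
  set y : ℤ → ℝ := fun A => if hc : ∃ ω, p ω ≠ 0 ∧ G ω = G ω₁ ∧ cA ω = A then X hc.choose else 0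
    with hy
  have hy1 : ∀ A, (∃ ω, p ω ≠ 0 ∧ G ω = G ω₁ ∧ cA ω = A) →
      ∃ ω, p ω ≠ 0 ∧ G ω = G ω₁ ∧ cA ω = A ∧ y A = X ω := by
    intro A hc
    refine ⟨hc.choose, hc.choose_spec.1, hc.choose_spec.2.1, hc.choose_spec.2.2, ?_⟩
    rw [hy]
    simp only [dif_pos hc]
  have hbound : ∀ ω₂, p ω₂ ≠ 0 → G ω₂ = G ω₁ →
      pd n (X ω₁ - X ω₂) ≤ 2 * pd n (X ω₁ - y (cA ω₂)) := by
    intro ω₂ h3 h4
    obtain ⟨ω, _, _, h6, h7⟩ := hy1 (cA ω₂) ⟨ω₂, h3, h4, rfl⟩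
    rw [h7]
    have h8 := floor_same (a := (2 : ℝ) ^ n * X ω) (b := (2 : ℝ) ^ n * X ω₂) h6
    rw [← mul_sub, abs_mul, abs_of_pos (by positivity)] at h8
    have h9 : |(X ω₁ - X ω₂) - (X ω₁ - X ω)| ≤ 1 / 2 ^ n := by
      rw [show (X ω₁ - X ω₂) - (X ω₁ - X ω) = X ω - X ω₂ by ring, le_div_iff₀ (by positivity)]
      linarith
    have := pd_near (n := n) (B := 1) (by norm_num) h9
    norm_num at this
    linarith
  have step := cm' (p := p) hp.nonneg cA G hκ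
    (fun ω A => if G ω = G ω₁ then 2 * pd n (X ω₁ - y A) else 0)
    (fun ω s => by
      split_ifs
      · have := pd_pos n (X ω₁ - y s)
        positivity
      · exact le_rfl)
    (fun ω ω' _ _ h => by
      funext A
      rw [h]) E hE
  refine le_trans (Finset.sum_le_sum fun ω₂ _ => ?_) (step.trans ?_)
  · by_cases h3 : p ω₂ = 0
    · have : res p E ω₂ = 0 := le_antisymm ((res_le hp.nonneg _ ω₂).trans h3.le)
        (res_nonneg hp.nonneg _ ω₂)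
      rw [this, zero_mul, zero_mul]
    · refine mul_le_mul_of_nonneg_left ?_ (res_nonneg hp.nonneg _ ω₂)
      by_cases h4 : G ω₂ = G ω₁
      · rw [if_pos h4, if_pos h4]
        exact hbound ω₂ h3 h4
      · rw [if_neg h4, if_neg h4]
  · have h5 : ∀ ω, p ω * ∑ s ∈ vals p cA G (G ω), (if G ω = G ω₁ then 2 * pd n (X ω₁ - y s) else 0) ≤
        p ω * (if G ω = G ω₁ then 2 * (C₂ * 2 ^ n * (n + 1)) else 0) := by
      intro ω
      refine mul_le_mul_of_nonneg_left ?_ (hp.nonneg ω)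
      by_cases h4 : G ω = G ω₁
      · simp only [if_pos h4]
        rw [← Finset.mul_sum]
        refine mul_le_mul_of_nonneg_left ?_ (by norm_num)
        refine h2 n (X ω₁) _ y ?_
        intro A hA
        obtain ⟨w, a1, a2, a3⟩ := of_mem_vals hA
        obtain ⟨ω', b1, b2, b3, b4⟩ := hy1 A ⟨w, a1, a2.trans h4, a3⟩
        rw [b4]
        refine ⟨b3, ?_⟩
        have h6 := (D.vG ω₁ ω' (hpos _ h1) (hpos _ b1) b2.symm).2
        refine h6.trans (div_le_self (by linarith) ?_)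
        exact one_le_pow₀ (by norm_num)
      · simp only [if_neg h4, Finset.sum_const_zero]
        exact le_rfl
    refine (mul_le_mul_of_nonneg_left (Finset.sum_le_sum fun ω _ => h5 ω) hκ).trans ?_
    rw [sum_fib p G (G ω₁)]
    apply le_of_eq
    ring

/-- Energy of the positions at the time `t'`. -/
theorem en2 (D : XD p G L S c z X v x u g g' n m M B γ d ε₀) {C₁ C₂ : ℝ} (hC₁ : 0 < C₁)
    (hC₂ : 0 < C₂)
    (h1 : ∀ (n M : ℕ) (a b σ₀ : ℝ) (F : Finset ℤ), n ≤ M →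
      |a| ≤ B → |b| ≤ B → (∀ S ∈ F, |((S : ℝ) - σ₀)| ≤ B * 2 ^ M) →
      ∑ S ∈ F, pd n (a + ((S : ℝ) - σ₀) / 2 ^ M * b) ≤ C₁ * 2 ^ M * (n + 1) * pd n a)
    (h2 : ∀ (n : ℕ) (x : ℝ) (F : Finset ℤ) (y : ℤ → ℝ),
      (∀ A ∈ F, ⌊(2 : ℝ) ^ n * y A⌋ = A ∧ |x - y A| ≤ B) →
      ∑ A ∈ F, pd n (x - y A) ≤ C₂ * 2 ^ n * (n + 1))
    {κ κS : ℝ} (hκ : 0 ≤ κ) (hκS : 0 ≤ κS) (E : Set Ω)
    (hE : ∀ ω ∈ E, law p (fun ω => (⌊(2 : ℝ) ^ n * X ω⌋, G ω)) (⌊(2 : ℝ) ^ n * X ω⌋, G ω) ≤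
      κ * law p G (G ω))
    (hES : ∀ ω ∈ E, law p (fun ω => (S ω, (G ω, L ω))) (S ω, (G ω, L ω)) ≤
      κS * law p (fun ω => (G ω, L ω)) (G ω, L ω)) (S₁ : 𝒢 → ℝ)
    (hS₁ : ∀ ω, 0 < p ω → |((S ω : ℝ) - S₁ (G ω))| ≤ B * 2 ^ M) [DecidableEq 𝒢] :
    ∑ ω₁, res p E ω₁ * (1 / law p G (G ω₁) * ∑ ω₂, res p E ω₂ *
      (if G ω₂ = G ω₁ ∧ S ω₂ = S ω₁ then
        pd n ((X ω₁ - X ω₂) + ((S ω₁ : ℝ) - S₁ (G ω₁)) / 2 ^ M * (v ω₁ - v ω₂)) else 0)) ≤
      κS * (κS * (C₁ * 2 ^ M * (n + 1) * (2 * κ * C₂ * 2 ^ n * (n + 1)))) := by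
  classical
  have hB := D.B1
  have hp := D.law
  have hpos : ∀ ω, p ω ≠ 0 → 0 < p ω := fun ω h => lt_of_le_of_ne (hp.nonneg ω) (Ne.symm h)
  set EX : Set Ω := {ω | law p (fun ω => (⌊(2 : ℝ) ^ n * X ω⌋, G ω)) (⌊(2 : ℝ) ^ n * X ω⌋, G ω) ≤
      κ * law p G (G ω)} with hEX
  set ph : Ω → Ω → ℤ → ℝ := fun ω₁ ω₂ s =>
    pd n ((X ω₁ - X ω₂) + ((s : ℝ) - S₁ (G ω₁)) / 2 ^ M * (v ω₁ - v ω₂)) with hph
  have ph0 : ∀ a b s, 0 < ph a b s := fun a b s => pd_pos _ _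
  -- the second point
  have s2 : ∀ ω₁, ∑ ω₂, res p E ω₂ *
      (if G ω₂ = G ω₁ ∧ S ω₂ = S ω₁ then ph ω₁ ω₂ (S ω₁) else 0) ≤
      κS * ∑ ω₂, res p EX ω₂ * (if G ω₂ = G ω₁ then ph ω₁ ω₂ (S ω₁) else 0) := by
    intro ω₁
    have step := cm' (p := p) hp.nonneg S (fun ω => (G ω, L ω)) hκS
      (fun ω₂ s => if G ω₂ = G ω₁ ∧ s = S ω₁ ∧ ω₂ ∈ EX then ph ω₁ ω₂ (S ω₁) else 0)
      (fun ω s => by
        split_ifs
        · exact (ph0 _ _ _).le
        · exact le_rfl)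
      (fun ω ω' a b h => by
        funext s
        have e1 := (Prod.ext_iff.mp h).1
        have e2 := (Prod.ext_iff.mp h).2
        dsimp only at e1 e2
        have e3 := D.det ω ω' (hpos _ a) (hpos _ b) e1 e2
        have e4 : ω ∈ EX ↔ ω' ∈ EX := by
          rw [hEX]
          simp only [Set.mem_setOf_eq, e1, e3.1]
        have e6 : (G ω = G ω₁ ∧ s = S ω₁ ∧ ω ∈ EX) ↔ (G ω' = G ω₁ ∧ s = S ω₁ ∧ ω' ∈ EX) := by
          rw [e4, e1]
        have e5 : ph ω₁ ω (S ω₁) = ph ω₁ ω' (S ω₁) := by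
          rw [hph]
          dsimp only
          rw [e3.1, e3.2]
        by_cases h7 : G ω' = G ω₁ ∧ s = S ω₁ ∧ ω' ∈ EX
        · rw [if_pos (e6.mpr h7), if_pos h7, e5]
        · rw [if_neg (fun h8 => h7 (e6.mp h8)), if_neg h7]) E hES
    refine le_trans (le_of_eq ?_) (step.trans (mul_le_mul_of_nonneg_left ?_ hκS))
    · refine Finset.sum_congr rfl fun ω₂ _ => ?_
      by_cases h : ω₂ ∈ E
      · have h' : ω₂ ∈ EX := hE ω₂ h
        congr 1
        have : (G ω₂ = G ω₁ ∧ S ω₂ = S ω₁ ∧ ω₂ ∈ EX) ↔ (G ω₂ = G ω₁ ∧ S ω₂ = S ω₁) := by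
          tauto
        simp only [this]
      · unfold res
        rw [if_neg h, zero_mul, zero_mul]
    · refine Finset.sum_le_sum fun ω₂ _ => ?_
      have h0 := hp.nonneg ω₂
      by_cases h : G ω₂ = G ω₁ ∧ ω₂ ∈ EX
      · unfold res
        rw [if_pos h.2, if_pos h.1]
        refine mul_le_mul_of_nonneg_left ?_ h0
        have h3 : ∀ s ∈ vals p S (fun ω => (G ω, L ω)) (G ω₂, L ω₂),
            (if G ω₂ = G ω₁ ∧ s = S ω₁ ∧ ω₂ ∈ EX then ph ω₁ ω₂ (S ω₁) else 0) ≤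
            (if s = S ω₁ then ph ω₁ ω₂ (S ω₁) else 0) := by
          intro s _
          by_cases hs : s = S ω₁
          · rw [if_pos hs]
            split_ifs
            · exact le_rfl
            · exact (ph0 _ _ _).le
          · rw [if_neg hs, if_neg (fun e => hs e.2.1)]
        refine (Finset.sum_le_sum h3).trans ?_
        rw [Finset.sum_ite_eq']
        split_ifs
        · exact le_rfl
        · exact (ph0 _ _ _).le
      · have h3 : ∀ s ∈ vals p S (fun ω => (G ω, L ω)) (G ω₂, L ω₂),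
            (if G ω₂ = G ω₁ ∧ s = S ω₁ ∧ ω₂ ∈ EX then ph ω₁ ω₂ (S ω₁) else 0) = 0 := by
          intro s _
          rw [if_neg (fun e => h ⟨e.1, e.2.2⟩)]
        rw [Finset.sum_eq_zero h3, mul_zero]
        refine mul_nonneg (res_nonneg hp.nonneg _ _) ?_
        split_ifs
        · exact (ph0 _ _ _).le
        · exact le_rfl
  -- the first point
  have s1 : ∑ ω₁, res p E ω₁ * (1 / law p G (G ω₁) *
      (κS * ∑ ω₂, res p EX ω₂ * (if G ω₂ = G ω₁ then ph ω₁ ω₂ (S ω₁) else 0))) ≤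
      κS * ∑ ω₁, p ω₁ * ∑ s ∈ vals p S (fun ω => (G ω, L ω)) (G ω₁, L ω₁),
        (1 / law p G (G ω₁) *
        (κS * ∑ ω₂, res p EX ω₂ * (if G ω₂ = G ω₁ then ph ω₁ ω₂ s else 0))) := by
    refine cm' (p := p) hp.nonneg S (fun ω => (G ω, L ω)) hκS
      (fun ω₁ s => 1 / law p G (G ω₁) *
        (κS * ∑ ω₂, res p EX ω₂ * (if G ω₂ = G ω₁ then ph ω₁ ω₂ s else 0)))
      (fun ω s => ?_) (fun ω ω' a b h => ?_) E hES
    · refine mul_nonneg (one_div_nonneg.mpr (law_nonneg hp.nonneg _ _)) (mul_nonneg hκS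
        (Finset.sum_nonneg fun ω₂ _ => mul_nonneg (res_nonneg hp.nonneg _ _) ?_))
      split_ifs
      · exact (ph0 _ _ _).le
      · exact le_rfl
    · funext s
      have e1 := (Prod.ext_iff.mp h).1
      have e2 := (Prod.ext_iff.mp h).2
      dsimp only at e1 e2
      have e3 := D.det ω ω' (hpos _ a) (hpos _ b) e1 e2
      have e5 : ∀ ω₂, ph ω ω₂ s = ph ω' ω₂ s := by
        intro ω₂
        rw [hph]
        dsimp only
        rw [e3.1, e3.2, e1]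
      simp only [e1, e5]
  have s0 : ∑ ω₁, res p E ω₁ * (1 / law p G (G ω₁) * ∑ ω₂, res p E ω₂ *
      (if G ω₂ = G ω₁ ∧ S ω₂ = S ω₁ then ph ω₁ ω₂ (S ω₁) else 0)) ≤
      ∑ ω₁, res p E ω₁ * (1 / law p G (G ω₁) *
      (κS * ∑ ω₂, res p EX ω₂ * (if G ω₂ = G ω₁ then ph ω₁ ω₂ (S ω₁) else 0))) := by
    refine Finset.sum_le_sum fun ω₁ _ => ?_
    refine mul_le_mul_of_nonneg_left ?_ (res_nonneg hp.nonneg _ _)
    exact mul_le_mul_of_nonneg_left (s2 ω₁) (one_div_nonneg.mpr (law_nonneg hp.nonneg _ _))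
  refine s0.trans (s1.trans (mul_le_mul_of_nonneg_left ?_ hκS))
  -- (N1) and (N2)
  have hfin : ∀ ω₁, p ω₁ * ∑ s ∈ vals p S (fun ω => (G ω, L ω)) (G ω₁, L ω₁),
        (1 / law p G (G ω₁) *
        (κS * ∑ ω₂, res p EX ω₂ * (if G ω₂ = G ω₁ then ph ω₁ ω₂ s else 0))) ≤
      p ω₁ * (κS * (C₁ * 2 ^ M * (n + 1) * (2 * κ * C₂ * 2 ^ n * (n + 1)))) := by
    intro ω₁
    by_cases hω : p ω₁ = 0
    · rw [hω, zero_mul, zero_mul]
    · have hω' := hpos _ hω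
      refine mul_le_mul_of_nonneg_left ?_ hω'.le
      have hl := law_pos hp.nonneg G hω'
      rw [← Finset.mul_sum, ← Finset.mul_sum, Finset.sum_comm]
      have a1 : ∀ ω₂, ∑ s ∈ vals p S (fun ω => (G ω, L ω)) (G ω₁, L ω₁),
          res p EX ω₂ * (if G ω₂ = G ω₁ then ph ω₁ ω₂ s else 0) ≤
          (C₁ * 2 ^ M * (n + 1)) *
            (res p EX ω₂ * (if G ω₂ = G ω₁ then pd n (X ω₁ - X ω₂) else 0)) := by
        intro ω₂
        rw [← Finset.mul_sum]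
        by_cases h3 : p ω₂ = 0
        · have : res p EX ω₂ = 0 := le_antisymm ((res_le hp.nonneg _ ω₂).trans h3.le)
            (res_nonneg hp.nonneg _ ω₂)
          rw [this]; simp
        · by_cases h4 : G ω₂ = G ω₁
          · simp only [if_pos h4]
            have h5 := D.vG ω₁ ω₂ hω' (hpos _ h3) h4.symm
            have h6 := h1 n M (X ω₁ - X ω₂) (v ω₁ - v ω₂) (S₁ (G ω₁))
              (vals p S (fun ω => (G ω, L ω)) (G ω₁, L ω₁)) D.nM
              (h5.2.trans (div_le_self (by linarith) (one_le_pow₀ (by norm_num)))) h5.1 (by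
                intro s hs
                obtain ⟨w, b1, b2, b3⟩ := of_mem_vals hs
                have := hS₁ w (hpos _ b1)
                have b4 : G w = G ω₁ := (Prod.ext_iff.mp b2).1
                rw [b3, b4] at this
                exact this)
            calc res p EX ω₂ * _ ≤ res p EX ω₂ * (C₁ * 2 ^ M * (n + 1) * pd n (X ω₁ - X ω₂)) :=
                  mul_le_mul_of_nonneg_left h6 (res_nonneg hp.nonneg _ _)
              _ = _ := by ring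
          · simp only [if_neg h4, Finset.sum_const_zero, mul_zero]
            exact le_rfl
      have a2 := Finset.sum_le_sum (s := Finset.univ) fun ω₂ _ => a1 ω₂
      rw [← Finset.mul_sum] at a2
      have a3 := en1 D hC₂ h2 hκ EX (fun ω h => h) ω₁ hω
      have a4 : (C₁ * 2 ^ M * (n + 1)) *
          ∑ ω₂, res p EX ω₂ * (if G ω₂ = G ω₁ then pd n (X ω₁ - X ω₂) else 0) ≤
          (C₁ * 2 ^ M * (n + 1)) * (law p G (G ω₁) * (2 * κ * C₂ * 2 ^ n * (n + 1))) :=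
        mul_le_mul_of_nonneg_left a3 (by positivity)
      have a5 := a2.trans a4
      calc 1 / law p G (G ω₁) * (κS * _) ≤ 1 / law p G (G ω₁) *
            (κS * ((C₁ * 2 ^ M * (n + 1)) * (law p G (G ω₁) * (2 * κ * C₂ * 2 ^ n * (n + 1))))) :=
            mul_le_mul_of_nonneg_left (mul_le_mul_of_nonneg_left a5 hκS)
              (one_div_nonneg.mpr hl.le)
        _ = _ := by field_simp
  refine (Finset.sum_le_sum fun ω₁ _ => hfin ω₁).trans ?_
  rw [← Finset.sum_mul, hp.sum_one, one_mul]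

end en

end Pool.LX
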