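import Pool.Agent.H86.LX.Main

/-!
# LEMMA X from the number lemmas
-/

set_option autoImplicit false

namespace Pool.LX

open Finset Real
open Pool.Agent.H49.Ent Pool.Agent.H32.Dense Pool.STK Pool.KAF

theorem Pr_le_add {Ω : Type} [Fintype Ω] {p : Ω → ℝ} (hp : ∀ ω, 0 ≤ p ω) {E A A' : Set Ω}
    (h : ∀ ω ∈ E, ω ∈ A ∨ ω ∈ A') : Pr p E ≤ Pr p A + Pr p A' := by
  classical
  rw [Pr_sum, Pr_sum, Pr_sum, ← Finset.sum_add_distrib]
  refine Finset.sum_le_sum fun ω _ => ?_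
  have h0 := hp ω
  by_cases h1 : ω ∈ E
  · rcases h ω h1 with h2 | h2
    · rw [if_pos h1, if_pos h2]
      split_ifs <;> linarith
    · rw [if_pos h1, if_pos h2]
      split_ifs <;> linarith
  · rw [if_neg h1]
    split_ifs <;> linarith

theorem Pr_glue_fst {Ω T : Type} [Fintype Ω] {p : Ω → ℝ} (hp : ∀ ω, 0 ≤ p ω) (Z : Ω → T)
    (E : Set Ω) : Pr (glue p p Z Z) {W | W.1 ∈ E} = Pr p E := by
  classical
  rw [Pr_sum, Pr_sum, Fintype.sum_prod_type]
  refine Finset.sum_congr rfl fun ω _ => ?_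
  by_cases h : ω ∈ E
  · simp only [Set.mem_setOf_eq, h, if_true]
    exact glue_fst hp (fun _ => rfl) ω
  · simp [h]

theorem Pr_glue_snd {Ω T : Type} [Fintype Ω] {p : Ω → ℝ} (hp : ∀ ω, 0 ≤ p ω) (Z : Ω → T)
    (E : Set Ω) : Pr (glue p p Z Z) {W | W.2 ∈ E} = Pr p E := by
  classical
  rw [Pr_sum, Pr_sum, Fintype.sum_prod_type, Finset.sum_comm]
  refine Finset.sum_congr rfl fun ω _ => ?_
  by_cases h : ω ∈ E
  · simp only [Set.mem_setOf_eq, h, if_true]
    exact glue_snd hp (fun _ => rfl) ω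
  · simp [h]

theorem exp_neg_le {s : ℝ} (hs : 0 < s) : Real.exp (-s) ≤ 1 / s := by
  rw [Real.exp_neg, inv_eq_one_div]
  apply one_div_le_one_div_of_le hs
  have := Real.add_one_le_exp s
  linarith only [this]

theorem x_of (n1 : N1Stmt) (n2 : N2Stmt) (n3 : N3Stmt) : XStmt := by
  intro B hB
  obtain ⟨C₁, hC₁, h1⟩ := n1 B hB
  obtain ⟨C₂, hC₂, h2⟩ := n2 B hB
  obtain ⟨C₃, hC₃, h3⟩ := n3 B hB
  set K₀ : ℝ := max 1 (C₁ * C₂ * C₃ * (1 + B)) with hK₀
  have hK₀1 : 1 ≤ K₀ := le_max_left _ _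
  have hK₀2 : C₁ * C₂ * C₃ * (1 + B) ≤ K₀ := le_max_right _ _
  have hlK : 0 ≤ Real.log (4 * K₀) := Real.log_nonneg (by linarith only [hK₀1])
  have hlB : 0 ≤ Real.log (4 * B) := Real.log_nonneg (by linarith only [hB])
  have hlB3 : Real.log (3 * B) ≤ Real.log (4 * B) := Real.log_le_log (by linarith) (by linarith)
  set C : ℝ := Real.log (4 * K₀) + 3 * Real.log (4 * B) + 9 with hC
  refine ⟨C, by linarith, ?_⟩
  intro Ω 𝒢 Λ 𝒞 𝒵 _ p G L S c z X v x u g g' n m M γ d ε₀ s D hd hs hε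
  classical
  have hp := D.law
  have hγ0 := D.γ0
  have hpos : ∀ ω, p ω ≠ 0 → 0 < p ω := fun ω h => lt_of_le_of_ne (hp.nonneg ω) (Ne.symm h)
  have hs0 : 0 < s := by linarith only [hs]
  set P : ℝ := 2 ^ n with hP
  set Q : ℝ := 2 ^ m with hQ
  set R : ℝ := 2 ^ M with hR
  have hP0 : 0 < P := by positivity
  have hQ0 : 0 < Q := by positivity
  have hR0 : 0 < R := by positivity
  have hPQ : 1 ≤ P / Q := by
    rw [le_div_iff₀ hQ0, one_mul, hP, hQ]
    exact pow_le_pow_right₀ (by norm_num) D.mn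
  have hR1 : 1 ≤ R := one_le_pow₀ (by norm_num)
  set NX : ℝ := 4 * B * (P / Q) with hNX
  set NS : ℝ := 3 * B * R with hNS
  have hNX0 : 0 < NX := by positivity
  have hNS0 : 0 < NS := by positivity
  set κ : ℝ := Real.exp s / NX with hκ
  set κS : ℝ := Real.exp s / NS with hκS
  set lS : ℝ := Real.exp (-s) / NS with hlS
  set lc : ℝ := Real.exp (-s) / B with hlc
  have hκ0 : 0 < κ := by positivity
  have hκS0 : 0 < κS := by positivity
  have hlS0 : 0 < lS := by positivity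
  have hlc0 : 0 < lc := by positivity
  -- the number of the values
  have hcell : ∀ {τ : Type} (f : Ω → ℝ) (Z : Ω → τ),
      (∀ ω ω', 0 < p ω → 0 < p ω' → Z ω = Z ω' → |f ω - f ω'| ≤ B / Q) →
      ∀ ω, p ω ≠ 0 → ((vals p (fun ω => ⌊P * f ω⌋) Z (Z ω)).card : ℝ) ≤ NX := by
    intro τ f Z hf ω _
    have hPB : 0 ≤ P * (B / Q) := by positivity
    refine (card_diam _ (D := P * (B / Q) + 1) (by linarith only [hPB]) ?_).trans ?_
    · intro a ha b hb
      obtain ⟨w, a1, a2, a3⟩ := of_mem_vals ha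
      obtain ⟨w', b1, b2, b3⟩ := of_mem_vals hb
      have e1 := floor_diff (P * f w) (P * f w')
      rw [a3, b3] at e1
      have e2 := le_of_abs_le (hf w w' (hpos _ a1) (hpos _ b1) (a2.trans b2.symm))
      have e3 := mul_le_mul_of_nonneg_left e2 hP0.le
      linarith only [e1, e3]
    · have : P * (B / Q) = B * (P / Q) := by ring
      rw [this, hNX]
      nlinarith only [hB, hPQ]
  obtain ⟨S₁, hS₁, hmov⟩ := D.mov
  have hScard : ∀ {τ : Type} (Z : Ω → τ), (∀ ω ω', Z ω = Z ω' → G ω = G ω') →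
      ∀ ω, p ω ≠ 0 → ((vals p S Z (Z ω)).card : ℝ) ≤ NS := by
    intro τ Z hZ ω _
    refine (card_diam _ (D := 2 * B * R) (by positivity) ?_).trans ?_
    · intro a ha b hb
      obtain ⟨w, a1, a2, a3⟩ := of_mem_vals ha
      obtain ⟨w', b1, b2, b3⟩ := of_mem_vals hb
      have e0 : G w = G w' := hZ _ _ (a2.trans b2.symm)
      have e1 := hS₁ w (hpos _ a1)
      have e2 := hS₁ w' (hpos _ b1)
      rw [a3, e0] at e1
      rw [b3] at e2
      rw [abs_le] at e1 e2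
      linarith only [e1, e2, e1.1, e1.2, e2.1, e2.2]
    · rw [hNS]
      nlinarith only [hR1, hB, hR0]
  -- the events
  set A1 : Set Ω := {ω | κ * law p G (G ω) <
    law p (fun ω => (⌊P * X ω⌋, G ω)) (⌊P * X ω⌋, G ω)} with hA1
  set A2 : Set Ω := {ω | κS * law p (fun ω => (G ω, L ω)) (G ω, L ω) <
    law p (fun ω => (S ω, (G ω, L ω))) (S ω, (G ω, L ω))} with hA2
  set A3 : Set Ω := {ω | law p (fun ω => (S ω, G ω)) (S ω, G ω) < lS * law p G (G ω)} with hA3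
  set A4 : Set Ω := {ω | law p (fun ω => (c ω, (G ω, S ω))) (c ω, (G ω, S ω)) <
    lc * law p (fun ω => (G ω, S ω)) (G ω, S ω)} with hA4
  set A5 : Set Ω := {ω | |g ω - g' ω| < γ} with hA5
  set A6 : Set Ω := {ω | κ * law p (fun ω => (c ω, z ω)) (c ω, z ω) <
    law p (fun ω => (⌊P * x ω⌋, (c ω, z ω))) (⌊P * x ω⌋, (c ω, z ω))} with hA6
  have hlogX : Real.log NX = Real.log (4 * B) + ((n : ℝ) - m) * Real.log 2 := by
    rw [hNX, Real.log_mul (by positivity) (by positivity), Real.log_div hP0.ne' hQ0.ne', hP, hQ,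
      Real.log_pow, Real.log_pow]
    ring
  have hlogS : Real.log NS = Real.log (3 * B) + (M : ℝ) * Real.log 2 := by
    rw [hNS, Real.log_mul (by positivity) (by positivity), hR, Real.log_pow]
  have hes := exp_neg_le hs0
  have P1 : Pr p A1 ≤ (d + Real.log (4 * B) + 1) / s :=
    tail_up hp (fun ω => ⌊P * X ω⌋) G (vals p (fun ω => ⌊P * X ω⌋) G)
      (fun ω hω => mem_vals (fun ω => ⌊P * X ω⌋) G hω)
      (hcell X G (fun ω ω' a b e => (D.vG ω ω' a b e).2)) hNX0 hs0 (by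
        have := D.f1
        rw [hlogX]
        linarith only [this])
  have P6 : Pr p A6 ≤ (d + Real.log (4 * B) + 1) / s :=
    tail_up hp (fun ω => ⌊P * x ω⌋) (fun ω => (c ω, z ω))
      (vals p (fun ω => ⌊P * x ω⌋) (fun ω => (c ω, z ω)))
      (fun ω hω => mem_vals (fun ω => ⌊P * x ω⌋) (fun ω => (c ω, z ω)) hω)
      (hcell x (fun ω => (c ω, z ω)) (fun ω ω' a b e =>
        (D.sz ω ω' a b (Prod.ext_iff.mp e).1 (Prod.ext_iff.mp e).2).2)) hNX0 hs0 (by
        have := D.f3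
        rw [hlogX]
        linarith only [this])
  have P2 : Pr p A2 ≤ (d + Real.log (3 * B) + 1) / s :=
    tail_up hp S (fun ω => (G ω, L ω)) (vals p S (fun ω => (G ω, L ω)))
      (fun ω hω => mem_vals S (fun ω => (G ω, L ω)) hω)
      (hScard (fun ω => (G ω, L ω)) (fun _ _ e => (Prod.ext_iff.mp e).1)) hNS0 hs0 (by
        have := D.f2
        rw [hlogS]
        linarith only [this])
  have P3 : Pr p A3 ≤ Real.exp (-s) :=
    tail_lo hp S G (vals p S G) (fun ω hω => mem_vals S G hω)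
      (hScard G (fun _ _ e => e)) hNS0 (Real.exp_pos _)
  obtain ⟨F, hF1, hF2⟩ := D.cN
  have P4 : Pr p A4 ≤ Real.exp (-s) :=
    tail_lo hp c (fun ω => (G ω, S ω)) F (fun ω hω => hF2 ω (hpos _ hω))
      (fun ω _ => hF1 _) (by linarith only [hB]) (Real.exp_pos _)
  have P5 : Pr p A5 ≤ ε₀ := D.tur
  set cz : Ω → 𝒞 × 𝒵 := fun ω => (c ω, z ω) with hcz
  set r := glue p p cz cz with hr
  have hrlaw : IsLaw r := ⟨glue_nonneg hp.nonneg hp.nonneg, by
    rw [hr, sum_glue hp.nonneg (fun _ => rfl), hp.sum_one]⟩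
  set E₁ : Set Ω := {ω | ω ∉ A1 ∧ ω ∉ A2 ∧ ω ∉ A3 ∧ ω ∉ A4 ∧ ω ∉ A5} with hE₁
  set E₃ : Set Ω := {ω | ω ∉ A6} with hE₃
  set E : Set (Ω × Ω) := {W | W.1 ∈ E₁ ∧ W.2 ∈ E₃} with hE
  set ε : ℝ := ε₀ + C * (d + 1) / s with hεdef
  have hε₀0 : 0 ≤ ε₀ := le_trans (law_nonneg hp.nonneg _ _) P5
  have hPrE : Pr r Eᶜ ≤ ε := by
    have a1 : Pr r Eᶜ ≤ Pr r {W | W.1 ∈ E₁ᶜ} + Pr r {W | W.2 ∈ A6} := by
      refine Pr_le_add hrlaw.nonneg ?_
      intro W hW
      by_cases h : W.1 ∈ E₁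
      · right
        by_contra h'
        exact hW ⟨h, h'⟩
      · left
        exact h
    rw [Pr_glue_fst hp.nonneg cz, Pr_glue_snd hp.nonneg cz] at a1
    have a2 : Pr p E₁ᶜ ≤ Pr p A1 + (Pr p A2 + (Pr p A3 + (Pr p A4 + Pr p A5))) := by
      have b1 : Pr p E₁ᶜ ≤ Pr p A1 + Pr p {ω | ω ∈ A2 ∨ ω ∈ A3 ∨ ω ∈ A4 ∨ ω ∈ A5} := by
        refine Pr_le_add hp.nonneg ?_
        intro ω hω
        by_contra h
        push Not at h
        apply hω
        have h2 : ¬ (ω ∈ A2 ∨ ω ∈ A3 ∨ ω ∈ A4 ∨ ω ∈ A5) := h.2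
        push Not at h2
        exact ⟨h.1, h2.1, h2.2.1, h2.2.2.1, h2.2.2.2⟩
      have b2 : Pr p {ω | ω ∈ A2 ∨ ω ∈ A3 ∨ ω ∈ A4 ∨ ω ∈ A5} ≤
          Pr p A2 + Pr p {ω | ω ∈ A3 ∨ ω ∈ A4 ∨ ω ∈ A5} := Pr_le_add hp.nonneg fun ω h => h
      have b3 : Pr p {ω | ω ∈ A3 ∨ ω ∈ A4 ∨ ω ∈ A5} ≤
          Pr p A3 + Pr p {ω | ω ∈ A4 ∨ ω ∈ A5} := Pr_le_add hp.nonneg fun ω h => h
      have b4 : Pr p {ω | ω ∈ A4 ∨ ω ∈ A5} ≤ Pr p A4 + Pr p A5 :=
        Pr_le_add hp.nonneg fun ω h => h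
      linarith only [b1, b2, b3, b4]
    have a3 : Pr r Eᶜ ≤ (d + Real.log (4 * B) + 1) / s + ((d + Real.log (3 * B) + 1) / s +
        (1 / s + (1 / s + ε₀))) + (d + Real.log (4 * B) + 1) / s := by linarith only [hes, P1, P6, P2, P3, P4, P5, a1, a2]
    refine a3.trans ?_
    rw [hεdef]
    have a4 : (d + Real.log (4 * B) + 1) / s + ((d + Real.log (3 * B) + 1) / s +
        (1 / s + (1 / s + ε₀))) + (d + Real.log (4 * B) + 1) / s =
        ε₀ + (3 * d + 2 * Real.log (4 * B) + Real.log (3 * B) + 5) / s := by ring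
    rw [a4]
    have a5 : 3 * d + 2 * Real.log (4 * B) + Real.log (3 * B) + 5 ≤ C * (d + 1) := by
      rw [hC]
      nlinarith only [hlK, hlB3, hd, hlB]
    have := div_le_div_of_nonneg_right a5 hs0.le
    linarith only [this]
  -- the sum of the collisions
  have hks := ksum D hC₁ hC₂ hC₃ h1 h2 h3 hκ0.le hκS0.le hκ0.le hlS0 hlc0 E₁ E₃
    (fun ω h => not_lt.mp h.1) (fun ω h => not_lt.mp h.2.1) (fun ω h => not_lt.mp h.2.2.1)
    (fun ω h => not_lt.mp h.2.2.2.1) (fun ω h => not_lt.mp h.2.2.2.2) (fun ω h => not_lt.mp h)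
  set K : ℝ := K₀ * (Real.exp (7 * s) * (n + 1) ^ 2 * Q ^ 3 / (P ^ 2 * γ)) with hK
  have hK0 : 0 < K := by positivity
  have hKle : κ * κ * (C₃ / γ) * (1 + B) / (lS * lc) *
        (κS * (κS * (C₁ * R * (n + 1) * (2 * κ * C₂ * P * (n + 1))))) ≤ K := by
    have e1 : κ * κ * (C₃ / γ) * (1 + B) / (lS * lc) *
        (κS * (κS * (C₁ * R * (n + 1) * (2 * κ * C₂ * P * (n + 1))))) =
        (C₁ * C₂ * C₃ * (1 + B)) / (96 * B ^ 3) *
          (Real.exp (7 * s) * (n + 1) ^ 2 * Q ^ 3 / (P ^ 2 * γ)) := by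
      have e7 : Real.exp (7 * s) = Real.exp s ^ 7 := by
        rw [← Real.exp_nat_mul]; norm_num
      rw [hκ, hκS, hlS, hlc, e7, Real.exp_neg, hNX, hNS]
      have := Real.exp_pos s
      field_simp
      ring
    rw [e1, hK]
    refine mul_le_mul_of_nonneg_right ?_ (by positivity)
    have hB3 : 1 ≤ B ^ 3 := one_le_pow₀ hB
    refine (div_le_self (by positivity) (by linarith only [hB3])).trans hK₀2
  have hlog : Real.log (4 * K) = Real.log (4 * K₀) + 7 * s + 2 * Real.log (n + 1) +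
      3 * m * Real.log 2 - 2 * n * Real.log 2 + Real.log (1 / γ) := by
    have hn1 : (0 : ℝ) < n + 1 := by positivity
    have g1 : Real.log (4 * K) = Real.log (4 * K₀) +
        Real.log (Real.exp (7 * s) * (n + 1) ^ 2 * Q ^ 3 / (P ^ 2 * γ)) := by
      rw [hK, ← mul_assoc, Real.log_mul (by positivity) (by positivity)]
    have g2 : Real.log (Real.exp (7 * s) * (n + 1) ^ 2 * Q ^ 3 / (P ^ 2 * γ)) =
        Real.log (Real.exp (7 * s) * (n + 1) ^ 2 * Q ^ 3) - Real.log (P ^ 2 * γ) :=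
      Real.log_div (by positivity) (by positivity)
    have g3 : Real.log (Real.exp (7 * s) * (n + 1) ^ 2 * Q ^ 3) =
        Real.log (Real.exp (7 * s) * (n + 1) ^ 2) + Real.log (Q ^ 3) :=
      Real.log_mul (by positivity) (by positivity)
    have g4 : Real.log (Real.exp (7 * s) * ((n : ℝ) + 1) ^ 2) =
        Real.log (Real.exp (7 * s)) + Real.log (((n : ℝ) + 1) ^ 2) :=
      Real.log_mul (by positivity) (by positivity)
    have g5 : Real.log (P ^ 2 * γ) = Real.log (P ^ 2) + Real.log γ :=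
      Real.log_mul (by positivity) (by positivity)
    have g6 : Real.log (1 / γ) = -Real.log γ := by
      rw [one_div, Real.log_inv]
    have g7 : Real.log (((n : ℝ) + 1) ^ 2) = 2 * Real.log ((n : ℝ) + 1) := by
      rw [Real.log_pow]; norm_num
    have gQ : Real.log Q = m * Real.log 2 := Real.log_pow 2 m
    have gP : Real.log P = n * Real.log 2 := Real.log_pow 2 n
    have g8 : Real.log (Q ^ 3) = 3 * (m * Real.log 2) := by
      rw [Real.log_pow, gQ]; norm_num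
    have g9 : Real.log (P ^ 2) = 2 * (n * Real.log 2) := by
      rw [Real.log_pow, gP]; norm_num
    rw [g1, g2, g3, g4, g5, g6, Real.log_exp, g7, g8, g9]
    ring
  have hl2 : Real.log 2 ≤ 1 := by
    have := Real.log_two_lt_d9
    linarith only [this]
  have hl20 : 0 < Real.log 2 := Real.log_pos (by norm_num)
  have hlγ : 0 ≤ Real.log (1 / γ) := Real.log_nonneg (by
    rw [le_div_iff₀ hγ0, one_mul]
    exact D.γ1)
  have hln : 0 ≤ Real.log ((n : ℝ) + 1) := Real.log_nonneg (by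
    have : (0 : ℝ) ≤ n := Nat.cast_nonneg n
    linarith only)
  have hn0 : (0 : ℝ) ≤ n := Nat.cast_nonneg n
  have hm0 : (0 : ℝ) ≤ m := Nat.cast_nonneg m
  have hε0 : 0 ≤ ε := by
    rw [hεdef]
    have : 0 ≤ C * (d + 1) / s := by
      apply div_nonneg (mul_nonneg (by linarith only [hlK, hlB]) (by linarith only [hd])) hs0.le
    linarith only [hε₀0, this]
  by_cases h4K : 4 * K ≤ 1
  · -- entropy from collisions
    have hcoll := coll hrlaw
      (fun W : Ω × Ω => (⌊P * x W.2⌋, ⌊P * u W.2⌋)) (fun W : Ω × Ω => (G W.1, c W.1)) E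
      hPrE hK0 h4K (by
        refine le_trans (le_of_eq ?_) (hks.trans hKle)
        refine Finset.sum_congr rfl fun W _ => ?_
        congr 2
        exact law_glue_fst hp.nonneg (fun _ => rfl) (fun ω => (G ω, c ω)) _)
    have hCH1 : CH r (fun W : Ω × Ω => (⌊P * x W.2⌋, ⌊P * u W.2⌋))
        (fun W : Ω × Ω => (G W.1, c W.1)) ≤
        CH r (fun W : Ω × Ω => (⌊P * x W.2⌋, ⌊P * u W.2⌋)) (fun W : Ω × Ω => c W.2) := by
      refine CH_mono_cond hrlaw.nonneg ?_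
      intro W W' hW hW' e
      have a1 := ((glue_pos_iff hp.nonneg hp.nonneg W).mp hW).2.2
      have a2 := ((glue_pos_iff hp.nonneg hp.nonneg W').mp hW').2.2
      have a3 : c W.1 = c W.2 := (Prod.ext_iff.mp a1).1
      have a4 : c W'.1 = c W'.2 := (Prod.ext_iff.mp a2).1
      have a5 : c W.1 = c W'.1 := (Prod.ext_iff.mp e).2
      show c W.2 = c W'.2
      rw [← a3, ← a4, a5]
    have hCH2 : CH r (fun W : Ω × Ω => (⌊P * x W.2⌋, ⌊P * u W.2⌋)) (fun W : Ω × Ω => c W.2) =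
        CH p (fun ω => (⌊P * x ω⌋, ⌊P * u ω⌋)) c := by
      unfold CH
      rw [hr, H_glue_snd hp.nonneg (fun _ => rfl) c,
        H_glue_snd hp.nonneg (fun _ => rfl) (fun ω => ((⌊P * x ω⌋, ⌊P * u ω⌋), c ω))]
    have h5 : -Real.log (4 * K) ≤ 2 * n := by
      rw [hlog]
      nlinarith only [hlK, hs, hK0, hlγ, hln, h4K, hl2, hl20]
    have h6 : 2 * ε * -Real.log (4 * K) ≤ 4 * ε * n := by
      have := mul_le_mul_of_nonneg_left h5 (by linarith only [hε0] : 0 ≤ 2 * ε)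
      linarith only [this]
    rw [hCH2] at hCH1
    have h7 : (1 - 2 * ε) * -Real.log (4 * K) - 2 * ε =
        -Real.log (4 * K) - 2 * ε * -Real.log (4 * K) - 2 * ε := by ring
    rw [h7] at hcoll
    have h8 : Real.log (4 * K₀) + 1 ≤ C := by rw [hC]; linarith only [hlB, hK0, h4K]
    have h9 : ε ≤ 1 / 2 := hε
    rw [hlog] at hcoll h6
    linarith only [hlB, hs, hε, hK0, h4K, hcoll, hCH1, h6]
  · have h5 : 0 < Real.log (4 * K) := Real.log_pos (not_le.mp h4K)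
    have h6 : 0 ≤ CH p (fun ω => (⌊P * x ω⌋, ⌊P * u ω⌋)) c := CH_nonneg hp.nonneg _ _
    rw [hlog] at h5
    have h8 : Real.log (4 * K₀) + 1 ≤ C := by rw [hC]; linarith only [hlB]
    have h9 : 0 ≤ 4 * ε * n := by positivity
    linarith only [hlB, hs, h5, h6, h9]

end Pool.LX
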