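import Pool.Agent.H86.LX.Final
import Pool.Agent.H40.LXN

/-!
# LEMMA X, pure part
-/

set_option autoImplicit false

namespace Pool.LX

/-- **LEMMA X**, pure part. -/
theorem x_thm : XStmt := x_of n1 n2 n3

end Pool.LX
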