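import Pool.Agent.H86.LX.Cnt
import Pool.Agent.H86.LX.Thm
import Pool.Agent.H24.S6D.LxS

/-!
# LEMMA X, class half: the geometry of the labels
-/

set_option autoImplicit false

namespace Pool.LX

open Finset Real
open Pool.Agent.H49.Ent Pool.Agent.H32.Dense Pool.STK Pool.KA Pool.KSAT Pool.K2S Pool.PB Pool.KS6
  Pool.S6C Pool.S6U Pool.S6V

theorem fl_close {k : ℕ} {x y : ℝ} (h : ⌊(2 : ℝ) ^ k * x⌋ = ⌊(2 : ℝ) ^ k * y⌋) :
    |x - y| ≤ 1 / 2 ^ k := by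
  have h1 := floor_same h
  rw [← mul_sub, abs_mul, abs_of_pos (by positivity)] at h1
  rw [le_div_iff₀ (by positivity)]
  linarith

theorem near_lin {k l w : ℕ} {A A' D D' θ : ℝ} (hA : ⌊(2 : ℝ) ^ k * A⌋ = ⌊(2 : ℝ) ^ k * A'⌋)
    (hD : ⌊(2 : ℝ) ^ l * D⌋ = ⌊(2 : ℝ) ^ l * D'⌋) (hθ : |θ| ≤ 1 / 2 ^ w) :
    |(A + θ * D) - (A' + θ * D')| ≤ 1 / 2 ^ k + 1 / 2 ^ (w + l) := by
  have h1 := fl_close hA
  have h2 := fl_close hD
  have h3 : |θ * (D - D')| ≤ 1 / 2 ^ w * (1 / 2 ^ l) := by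
    rw [abs_mul]
    exact mul_le_mul hθ h2 (abs_nonneg _) (by positivity)
  have h4 : (1 : ℝ) / 2 ^ w * (1 / 2 ^ l) = 1 / 2 ^ (w + l) := by
    rw [pow_add]
    field_simp
  rw [show (A + θ * D) - (A' + θ * D') = (A - A') + θ * (D - D') by ring]
  refine (abs_add_le _ _).trans ?_
  linarith

section time

variable {J : ℕ} (F : Fam 3 J)

theorem T1_bd {g : ℕ} (hg : g ≤ J) (ω : F.Ω) :
    (F.T1 g ω : ℝ) / 2 ^ g ≤ F.t ω ∧ F.t ω ≤ ((F.T1 g ω : ℝ) + 1) / 2 ^ g := by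
  have e : (2 : ℝ) ^ J = 2 ^ g * 2 ^ (J - g) := by
    rw [← pow_add]
    congr 1
    omega
  have h1 : F.T ω / 2 ^ (J - g) * 2 ^ (J - g) ≤ F.T ω := Nat.div_mul_le_self _ _
  have h2 : F.T ω < (F.T ω / 2 ^ (J - g) + 1) * 2 ^ (J - g) := by
    have := Nat.lt_div_mul_add (a := F.T ω) (b := 2 ^ (J - g)) (by positivity)
    rw [add_mul, one_mul]
    exact this
  have h1' : ((F.T ω / 2 ^ (J - g) : ℕ) : ℝ) * 2 ^ (J - g) ≤ F.T ω := by exact_mod_cast h1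
  have h2' : (F.T ω : ℝ) < (((F.T ω / 2 ^ (J - g) : ℕ) : ℝ) + 1) * 2 ^ (J - g) := by
    exact_mod_cast h2
  unfold Fam.t Fam.T1
  constructor
  · rw [div_le_div_iff₀ (by positivity) (by positivity), e]
    nlinarith [pow_pos (two_pos : (0 : ℝ) < 2) g]
  · rw [div_le_div_iff₀ (by positivity) (by positivity), e]
    nlinarith [pow_pos (two_pos : (0 : ℝ) < 2) g]

theorem T1_le {g g' : ℕ} (h : g ≤ g') (hJ : g' ≤ J) (ω : F.Ω) :
    (F.T1 g ω : ℝ) / 2 ^ g ≤ (F.T1 g' ω : ℝ) / 2 ^ g' := by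
  obtain ⟨K, rfl⟩ := Nat.exists_eq_add_of_le h
  have h1 := T1_div F hJ ω
  have h2 : F.T1 g ω * 2 ^ K ≤ F.T1 (g + K) ω := by
    rw [h1]
    exact Nat.div_mul_le_self _ _
  have h3 : (F.T1 g ω : ℝ) * 2 ^ K ≤ F.T1 (g + K) ω := by exact_mod_cast h2
  rw [div_le_div_iff₀ (by positivity) (by positivity), pow_add]
  nlinarith [pow_pos (two_pos : (0 : ℝ) < 2) g]

theorem T1_near {g g' : ℕ} (h : g ≤ g') (hJ : g' ≤ J) {η ω : F.Ω} (e : F.T1 g η = F.T1 g ω) :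
    |F.t η - (F.T1 g' ω : ℝ) / 2 ^ g'| ≤ 1 / 2 ^ g := by
  have a1 := T1_bd F (h.trans hJ) η
  have a2 := T1_bd F (h.trans hJ) ω
  have a3 := T1_bd F hJ ω
  have a4 := T1_le F h hJ ω
  rw [e] at a1
  have e1 : ((F.T1 g ω : ℝ) + 1) / 2 ^ g = (F.T1 g ω : ℝ) / 2 ^ g + 1 / 2 ^ g := by ring
  rw [e1] at a1 a2
  rw [abs_le]
  constructor
  · linarith [a1.1, a2.2, a3.1]
  · linarith [a1.2, a4]

theorem slam_le {w w' : ℕ} (h : w ≤ w') (hJ : w' ≤ J) {η ω : F.Ω}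
    (e : slam F w' η = slam F w' ω) : slam F w η = slam F w ω := by
  obtain ⟨K, rfl⟩ := Nat.exists_eq_add_of_le h
  unfold slam at e ⊢
  simp only [Prod.mk.injEq] at e ⊢
  refine ⟨e.1, e.2.1, ?_⟩
  rw [T1_div F hJ η, T1_div F hJ ω, e.2.2]

theorem T1_of_T {g : ℕ} {η ω : F.Ω} (e : F.T η = F.T ω) : F.T1 g η = F.T1 g ω := by
  unfold Fam.T1
  rw [e]

/-- The position at the second time, from the position at the beginning of the window. -/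
theorem posn {wx wy : ℕ} {η ω : F.Ω} (e : slam F wx η = slam F wx ω) (i : Fin 3) :
    F.x η i = F.x1 wy ω i + (F.t η - (F.T1 wy ω : ℝ) / 2 ^ wy) * F.d ω i := by
  unfold slam at e
  simp only [Prod.mk.injEq] at e
  have e1 : F.u η = F.u ω := (Prod.ext_iff.mp e.1).1
  have e2 : F.d η = F.d ω := (Prod.ext_iff.mp e.1).2
  unfold Fam.x Fam.x1
  rw [e1, e2]
  ring

end time

section lab

variable {J : ℕ} {F : Fam 3 J} {B : F.Ω → Prop} {ς : Fin 3 → Fin 3}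
  {w₀ wx wy q D n P : ℕ} {C : ℝ} {Λ : Type} {κ : F.Ω → Λ} {pl : Λ → Pln} {al a : F.Ω → ℝ}

/-- The label. -/
noncomputable abbrev lb (F : Fam 3 J) (ς : Fin 3 → Fin 3) (wx wy q D n P : ℕ) (κ : F.Ω → Λ)
    (pl : Λ → Pln) (a : F.Ω → ℝ) (ω : F.Ω) :=
  lxl F ς wx wy q (D + n) (wx + q + D + n) P κ pl a ω

/-- The context. -/
noncomputable abbrev cx (F : Fam 3 J) (ς : Fin 3 → Fin 3) (wx q D P : ℕ) (κ : F.Ω → Λ)
    (pl : Λ → Pln) (al : F.Ω → ℝ) (ω : F.Ω) :=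
  (F.sbx ς (wx + q) (wx + q + D) P (ald D al) (fun ω => -(pl (κ ω)).s)
          (fun ω => -(pl (κ ω)).c) ω, (Uni.dg D al ω, (κ ω, F.W ω)))

theorem hwy (hD : LxD F B ς w₀ wx wy q D n P C κ pl al a) : wy ≤ J := by
  have h1 := hD.lev
  have h2 := hD.PJ
  have h3 := hD.mn
  omega

/-- Two lines with one label, seen at one second time. -/
theorem two (hD : LxD F B ς w₀ wx wy q D n P C κ pl al a) {η ω η' ω' : F.Ω}
    (e : slam F wx η = slam F wx ω) (e' : slam F wx η' = slam F wx ω')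
    (hl : lb F ς wx wy q D n P κ pl a ω = lb F ς wx wy q D n P κ pl a ω')
    (hT : F.T η = F.T η') :
    |F.x η (ς 0) - F.x η' (ς 0)| ≤ 2 / 2 ^ (wx + q) ∧
    |fu (ς 0) (ς 1) (a ω) (F.x η) - fu (ς 0) (ς 1) (a ω) (F.x η')| ≤
      2 / 2 ^ (wx + q + D + n) ∧
    |fn (ς 0) (ς 1) (ς 2) (pl (κ ω)).c (pl (κ ω)).s (F.x η) -
      fn (ς 0) (ς 1) (ς 2) (pl (κ ω)).c (pl (κ ω)).s (F.x η')| ≤ 2 / 2 ^ P := by
  unfold lb lxl at hl
  simp only [Prod.mk.injEq] at hl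
  obtain ⟨l1, ⟨l2, l3⟩, ⟨⟨l4, l5⟩, ⟨l6, l7⟩, l8, l9⟩, l10⟩ := hl
  have hx := hwy hD
  have hth : |F.t η - (F.T1 wy ω : ℝ) / 2 ^ wy| ≤ 1 / 2 ^ wx :=
    T1_near F hD.xy hx (by
      unfold slam at e
      simp only [Prod.mk.injEq] at e
      exact e.2.2)
  have ht : F.t η = F.t η' := by
    unfold Fam.t
    rw [hT]
  have hT1 : F.T1 wy ω' = F.T1 wy ω := T1_of_T F l1.symm
  set θ : ℝ := F.t η - (F.T1 wy ω : ℝ) / 2 ^ wy with hθ
  have p1 : ∀ i, F.x η i = F.x1 wy ω i + θ * F.d ω i := fun i => posn F e i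
  have p2 : ∀ i, F.x η' i = F.x1 wy ω' i + θ * F.d ω' i := by
    intro i
    rw [posn F (wy := wy) e' i, ← ht, hT1]
  have hlev := hD.lev
  have hxy := hD.xy
  refine ⟨?_, ?_, ?_⟩
  · rw [p1, p2]
    have h := near_lin l2 l3 hth
    refine h.trans ?_
    have h1 : (1 : ℝ) / 2 ^ (q + wy) ≤ 1 / 2 ^ (wx + q) :=
      one_div_le_one_div_of_le (by positivity) (pow_le_pow_right₀ (by norm_num) (by omega))
    have h2 : (2 : ℝ) / 2 ^ (wx + q) = 1 / 2 ^ (wx + q) + 1 / 2 ^ (wx + q) := by ring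
    linarith
  · rw [← l5] at l6 l8
    have f1 : fu (ς 0) (ς 1) (a ω) (F.x η) = fu (ς 0) (ς 1) (a ω) (F.x1 wy ω) +
        θ * fu (ς 0) (ς 1) (a ω) (F.d ω) := by
      unfold fu
      rw [p1, p1]; ring
    have f2 : fu (ς 0) (ς 1) (a ω) (F.x η') = fu (ς 0) (ς 1) (a ω) (F.x1 wy ω') +
        θ * fu (ς 0) (ς 1) (a ω) (F.d ω') := by
      unfold fu
      rw [p2, p2]; ring
    rw [f1, f2]
    refine (near_lin l6 l8 hth).trans ?_
    have h1 : wx + (D + n + q) = wx + q + D + n := by omega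
    rw [h1]
    have h2 : (2 : ℝ) / 2 ^ (wx + q + D + n) = 1 / 2 ^ (wx + q + D + n) +
      1 / 2 ^ (wx + q + D + n) := by ring
    linarith
  · rw [← l4] at l7 l9
    have f1 : fn (ς 0) (ς 1) (ς 2) (pl (κ ω)).c (pl (κ ω)).s (F.x η) =
        fn (ς 0) (ς 1) (ς 2) (pl (κ ω)).c (pl (κ ω)).s (F.x1 wy ω) +
        θ * fn (ς 0) (ς 1) (ς 2) (pl (κ ω)).c (pl (κ ω)).s (F.d ω) := by
      unfold fn
      rw [p1, p1, p1]; ring
    have f2 : fn (ς 0) (ς 1) (ς 2) (pl (κ ω)).c (pl (κ ω)).s (F.x η') =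
        fn (ς 0) (ς 1) (ς 2) (pl (κ ω)).c (pl (κ ω)).s (F.x1 wy ω') +
        θ * fn (ς 0) (ς 1) (ς 2) (pl (κ ω)).c (pl (κ ω)).s (F.d ω') := by
      unfold fn
      rw [p2, p2, p2]; ring
    rw [f1, f2]
    refine (near_lin l7 l9 hth).trans ?_
    have h1 : wx + (P - wx) = P := by omega
    rw [h1]
    have h2 : (2 : ℝ) / 2 ^ P = 1 / 2 ^ P + 1 / 2 ^ P := by ring
    linarith

/-- Two points with one label. -/
theorem own (hD : LxD F B ς w₀ wx wy q D n P C κ pl al a) {ω ω' : F.Ω}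
    (hl : lb F ς wx wy q D n P κ pl a ω = lb F ς wx wy q D n P κ pl a ω') :
    |F.x ω (ς 0) - F.x ω' (ς 0)| ≤ 2 / 2 ^ (wy + q) := by
  unfold lb lxl at hl
  simp only [Prod.mk.injEq] at hl
  obtain ⟨l1, ⟨l2, l3⟩, _⟩ := hl
  have hx := hwy hD
  have hth : |F.t ω - (F.T1 wy ω : ℝ) / 2 ^ wy| ≤ 1 / 2 ^ wy := T1_near F le_rfl hx rfl
  have ht : F.t ω = F.t ω' := by
    unfold Fam.t
    rw [l1]
  have hT1 : F.T1 wy ω' = F.T1 wy ω := T1_of_T F l1.symm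
  rw [posn F (wx := wx) (wy := wy) (η := ω) (ω := ω) rfl,
    posn F (wx := wx) (wy := wy) (η := ω') (ω := ω') rfl, ← ht, hT1]
  refine (near_lin l2 l3 hth).trans ?_
  rw [show q + wy = wy + q by ring]
  have h2 : (2 : ℝ) / 2 ^ (wy + q) = 1 / 2 ^ (wy + q) + 1 / 2 ^ (wy + q) := by ring
  linarith

/-- The own slope at the second time and the slope of the label. -/
theorem slo (hD : LxD F B ς w₀ wx wy q D n P C κ pl al a) {η ω : F.Ω} (hη : B η) (hω : B ω)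
    (e : slam F wx η = slam F wx ω) : |al η - a ω| ≤ 3 * C / 2 ^ D := by
  obtain ⟨ζ, hζ⟩ := hD.ax
  have h1 := hζ η hη
  have h2 := hζ ω hω
  rw [e] at h1
  have h3 := hD.near ω hω
  have hC := hD.C1
  have h4 : C / 2 ^ (D + n) ≤ C / 2 ^ D :=
    div_le_div_of_nonneg_left (by linarith) (by positivity)
      (pow_le_pow_right₀ (by norm_num) (by omega))
  have h5 : 3 * C / 2 ^ D = C / 2 ^ D + C / 2 ^ D + C / 2 ^ D := by ring
  rw [h5]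
  rw [abs_le] at h1 h2 h3 ⊢
  constructor <;> linarith [h1.1, h1.2, h2.1, h2.2, h3.1, h3.2]

theorem ald_near (D : ℕ) (al : F.Ω → ℝ) (ω : F.Ω) : |al ω - ald D al ω| ≤ 1 / 2 ^ D := by
  unfold ald Uni.dg
  have h1 := Int.floor_le ((2 : ℝ) ^ D * al ω)
  have h2 := Int.lt_floor_add_one ((2 : ℝ) ^ D * al ω)
  have h0 : (0 : ℝ) < 2 ^ D := by positivity
  have e : al ω - (⌊(2 : ℝ) ^ D * al ω⌋ : ℝ) / 2 ^ D =
      ((2 : ℝ) ^ D * al ω - ⌊(2 : ℝ) ^ D * al ω⌋) / 2 ^ D := by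
    field_simp
  rw [e, abs_div, abs_of_pos h0]
  refine div_le_div_of_nonneg_right ?_ h0.le
  rw [abs_le]
  constructor <;> linarith

end lab

end Pool.LX
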