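import Pool.Agent.H86.LX.Coll

/-!
# LEMMA X: the sum of the collisions
-/

set_option autoImplicit false

namespace Pool.LX

open Finset Real
open Pool.Agent.H49.Ent Pool.Agent.H32.Dense Pool.STK Pool.KAF

section

variable {Ω 𝒢 Λ 𝒞 𝒵 : Type} [Fintype Ω] {p : Ω → ℝ} {G : Ω → 𝒢}
    {L : Ω → Λ} {S : Ω → ℤ} {c : Ω → 𝒞} {z : Ω → 𝒵} {X v x u g g' : Ω → ℝ} {n m M : ℕ}
    {B γ d ε₀ : ℝ}

/-- The sum of the collisions over pairs of pairs. -/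
theorem ksum (D : XD p G L S c z X v x u g g' n m M B γ d ε₀) {C₁ C₂ C₃ : ℝ} (hC₁ : 0 < C₁)
    (hC₂ : 0 < C₂) (hC₃ : 0 < C₃)
    (h1 : ∀ (n M : ℕ) (a b σ₀ : ℝ) (F : Finset ℤ), n ≤ M →
      |a| ≤ B → |b| ≤ B → (∀ S ∈ F, |((S : ℝ) - σ₀)| ≤ B * 2 ^ M) →
      ∑ S ∈ F, pd n (a + ((S : ℝ) - σ₀) / 2 ^ M * b) ≤ C₁ * 2 ^ M * (n + 1) * pd n a)
    (h2 : ∀ (n : ℕ) (x : ℝ) (F : Finset ℤ) (y : ℤ → ℝ),
      (∀ A ∈ F, ⌊(2 : ℝ) ^ n * y A⌋ = A ∧ |x - y A| ≤ B) →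
      ∑ A ∈ F, pd n (x - y A) ≤ C₂ * 2 ^ n * (n + 1))
    (h3 : ∀ (n : ℕ) (γ x₁ x₂ u₁ u₂ g g₁ g₂ : ℝ) (F : Finset ℤ),
    0 < γ → γ ≤ 1 → |g| ≤ B → |g₁| ≤ B → |g₂| ≤ B → γ ≤ |g - g₁| → γ ≤ |g - g₂| →
    |x₁ - x₂| ≤ B → |(u₁ - u₂) - g * (x₁ - x₂)| ≤ B / 2 ^ n →
    (∀ A ∈ F, ∃ y₁ y₂ w₁ w₂ : ℝ, ⌊(2 : ℝ) ^ n * y₁⌋ = A ∧ ⌊(2 : ℝ) ^ n * y₂⌋ = A ∧
      ⌊(2 : ℝ) ^ n * w₁⌋ = ⌊(2 : ℝ) ^ n * w₂⌋ ∧ |y₁ - x₁| ≤ B ∧ |y₂ - x₂| ≤ B ∧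
      |(w₁ - u₁) - g₁ * (y₁ - x₁)| ≤ B / 2 ^ n ∧ |(w₂ - u₂) - g₂ * (y₂ - x₂)| ≤ B / 2 ^ n) →
    (F.card : ℝ) ≤ C₃ * pd n (x₁ - x₂) / γ)
    {κ κS κx lS lc : ℝ} (hκ : 0 ≤ κ) (hκS : 0 ≤ κS) (hκx : 0 ≤ κx) (hlS : 0 < lS) (hlc : 0 < lc)
    (E₁ E₃ : Set Ω)
    (hE : ∀ ω ∈ E₁, law p (fun ω => (⌊(2 : ℝ) ^ n * X ω⌋, G ω)) (⌊(2 : ℝ) ^ n * X ω⌋, G ω) ≤
      κ * law p G (G ω))
    (hES : ∀ ω ∈ E₁, law p (fun ω => (S ω, (G ω, L ω))) (S ω, (G ω, L ω)) ≤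
      κS * law p (fun ω => (G ω, L ω)) (G ω, L ω))
    (hEl : ∀ ω ∈ E₁, lS * law p G (G ω) ≤ law p (fun ω => (S ω, G ω)) (S ω, G ω))
    (hEc : ∀ ω ∈ E₁, lc * law p (fun ω => (G ω, S ω)) (G ω, S ω) ≤
      law p (fun ω => (c ω, (G ω, S ω))) (c ω, (G ω, S ω)))
    (hγ : ∀ ω ∈ E₁, γ ≤ |g ω - g' ω|)
    (hEx : ∀ ω ∈ E₃, law p (fun ω => (⌊(2 : ℝ) ^ n * x ω⌋, (c ω, z ω)))
      (⌊(2 : ℝ) ^ n * x ω⌋, (c ω, z ω)) ≤ κx * law p (fun ω => (c ω, z ω)) (c ω, z ω)) :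
    ∑ W : Ω × Ω, res (glue p p (fun ω => (c ω, z ω)) (fun ω => (c ω, z ω)))
        {W | W.1 ∈ E₁ ∧ W.2 ∈ E₃} W *
      (law (res (glue p p (fun ω => (c ω, z ω)) (fun ω => (c ω, z ω)))
        {W | W.1 ∈ E₁ ∧ W.2 ∈ E₃})
        (fun W : Ω × Ω => ((⌊(2 : ℝ) ^ n * x W.2⌋, ⌊(2 : ℝ) ^ n * u W.2⌋), (G W.1, c W.1)))
        ((⌊(2 : ℝ) ^ n * x W.2⌋, ⌊(2 : ℝ) ^ n * u W.2⌋), (G W.1, c W.1)) /
        law p (fun ω => (G ω, c ω)) (G W.1, c W.1)) ≤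
      κx * κx * (C₃ / γ) * (1 + B) / (lS * lc) *
        (κS * (κS * (C₁ * 2 ^ M * (n + 1) * (2 * κ * C₂ * 2 ^ n * (n + 1))))) := by
  classical
  have hB := D.B1
  have hp := D.law
  have hγ0 := D.γ0
  have hpos : ∀ ω, p ω ≠ 0 → 0 < p ω := fun ω h => lt_of_le_of_ne (hp.nonneg ω) (Ne.symm h)
  obtain ⟨S₁, hS₁, hmov⟩ := D.mov
  set cz : Ω → 𝒞 × 𝒵 := fun ω => (c ω, z ω) with hcz
  set cx : Ω → ℤ := fun ω => ⌊(2 : ℝ) ^ n * x ω⌋ with hcx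
  set cu : Ω → ℤ := fun ω => ⌊(2 : ℝ) ^ n * u ω⌋ with hcu
  set f : Ω → Ω → ℝ := fun ω w => fw p cz E₃ ω w with hf
  have f0 : ∀ ω w, 0 ≤ f ω w := fun ω w => fw_nonneg hp.nonneg cz E₃ ω w
  set r := res (glue p p cz cz) {W | W.1 ∈ E₁ ∧ W.2 ∈ E₃} with hr
  have er : ∀ ω w, r (ω, w) = res p E₁ ω * f ω w := fun ω w => res_glue p cz E₁ E₃ ω w
  set e : Ω → ℝ := res p E₁ with he
  have e0 : ∀ ω, 0 ≤ e ω := res_nonneg hp.nonneg E₁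
  have epos : ∀ ω, e ω ≠ 0 → 0 < p ω ∧ ω ∈ E₁ := by
    intro ω h
    rw [he] at h
    unfold res at h
    split_ifs at h with h1
    · exact ⟨hpos _ h, h1⟩
    · exact absurd rfl h
  -- the law of the restricted measure
  have hlaw : ∀ ω₁ w₁, law r (fun W : Ω × Ω => ((cx W.2, cu W.2), (G W.1, c W.1)))
      ((cx w₁, cu w₁), (G ω₁, c ω₁)) = ∑ ω₂, if (G ω₂, c ω₂) = (G ω₁, c ω₁) then
        e ω₂ * ∑ w₂, (if cx w₂ = cx w₁ ∧ cu w₂ = cu w₁ then f ω₂ w₂ else 0) else 0 := by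
    intro ω₁ w₁
    unfold law
    rw [Fintype.sum_prod_type]
    refine Finset.sum_congr rfl fun ω₂ _ => ?_
    by_cases h : (G ω₂, c ω₂) = (G ω₁, c ω₁)
    · rw [if_pos h, Finset.mul_sum]
      refine Finset.sum_congr rfl fun w₂ _ => ?_
      by_cases h' : cx w₂ = cx w₁ ∧ cu w₂ = cu w₁
      · rw [if_pos h', if_pos, er]
        dsimp only
        rw [h'.1, h'.2, h]
      · rw [if_neg h', mul_zero, if_neg]
        intro e1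
        have e2 := (Prod.ext_iff.mp (Prod.ext_iff.mp e1).1)
        exact h' ⟨e2.1, e2.2⟩
    · rw [if_neg h]
      refine Finset.sum_eq_zero fun w₂ _ => ?_
      rw [if_neg]
      intro e1
      exact h (Prod.ext_iff.mp e1).2
  -- the inner sum
  set Q : Ω → Ω → ℝ := fun ω₁ ω₂ => ∑ w₁, ∑ w₂,
    (if cx w₂ = cx w₁ ∧ cu w₂ = cu w₁ then f ω₁ w₁ * f ω₂ w₂ else 0) with hQ
  have hfirst : ∑ W : Ω × Ω, r W * (law r (fun W : Ω × Ω => ((cx W.2, cu W.2), (G W.1, c W.1)))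
        ((cx W.2, cu W.2), (G W.1, c W.1)) / law p (fun ω => (G ω, c ω)) (G W.1, c W.1)) =
      ∑ ω₁, e ω₁ * (1 / law p (fun ω => (G ω, c ω)) (G ω₁, c ω₁) * ∑ ω₂, e ω₂ *
        (if (G ω₂, c ω₂) = (G ω₁, c ω₁) then Q ω₁ ω₂ else 0)) := by
    rw [Fintype.sum_prod_type]
    refine Finset.sum_congr rfl fun ω₁ _ => ?_
    dsimp only
    simp_rw [er, hlaw]
    rw [← mul_assoc]
    have e1 : ∀ w₁, e ω₁ * f ω₁ w₁ * ((∑ ω₂, if (G ω₂, c ω₂) = (G ω₁, c ω₁) then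
        e ω₂ * ∑ w₂, (if cx w₂ = cx w₁ ∧ cu w₂ = cu w₁ then f ω₂ w₂ else 0) else 0) /
        law p (fun ω => (G ω, c ω)) (G ω₁, c ω₁)) =
        e ω₁ * (1 / law p (fun ω => (G ω, c ω)) (G ω₁, c ω₁)) * ∑ ω₂, e ω₂ *
          (if (G ω₂, c ω₂) = (G ω₁, c ω₁) then
          ∑ w₂, (if cx w₂ = cx w₁ ∧ cu w₂ = cu w₁ then f ω₁ w₁ * f ω₂ w₂ else 0) else 0) := by
      intro w₁
      have e2 : ∑ ω₂, e ω₂ * (if (G ω₂, c ω₂) = (G ω₁, c ω₁) then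
          ∑ w₂, (if cx w₂ = cx w₁ ∧ cu w₂ = cu w₁ then f ω₁ w₁ * f ω₂ w₂ else 0) else 0) =
          f ω₁ w₁ * ∑ ω₂, if (G ω₂, c ω₂) = (G ω₁, c ω₁) then
        e ω₂ * ∑ w₂, (if cx w₂ = cx w₁ ∧ cu w₂ = cu w₁ then f ω₂ w₂ else 0) else 0 := by
        rw [Finset.mul_sum]
        refine Finset.sum_congr rfl fun ω₂ _ => ?_
        by_cases h : (G ω₂, c ω₂) = (G ω₁, c ω₁)
        · rw [if_pos h, if_pos h]
          rw [← mul_assoc, mul_comm (f ω₁ w₁), mul_assoc, Finset.mul_sum (a := f ω₁ w₁)]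
          congr 1
          refine Finset.sum_congr rfl fun w₂ _ => ?_
          rw [mul_ite, mul_zero]
        · rw [if_neg h, if_neg h]; ring
      rw [e2]
      ring
    simp_rw [e1]
    rw [← Finset.mul_sum, Finset.sum_comm]
    congr 1
    refine Finset.sum_congr rfl fun ω₂ _ => ?_
    rw [← Finset.mul_sum]
    congr 1
    by_cases h : (G ω₂, c ω₂) = (G ω₁, c ω₁)
    · simp only [if_pos h]
      rfl
    · simp only [if_neg h, Finset.sum_const_zero]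
  show ∑ W : Ω × Ω, r W * (law r (fun W : Ω × Ω => ((cx W.2, cu W.2), (G W.1, c W.1)))
        ((cx W.2, cu W.2), (G W.1, c W.1)) / law p (fun ω => (G ω, c ω)) (G W.1, c W.1)) ≤ _
  rw [hfirst]
  have hmain := en2 D hC₁ hC₂ h1 h2 hκ hκS E₁ hE hES S₁ hS₁
  have hK0 : 0 ≤ κx * κx * (C₃ / γ) * (1 + B) / (lS * lc) := by positivity
  refine le_trans ?_ (mul_le_mul_of_nonneg_left hmain hK0)
  rw [Finset.mul_sum]
  refine Finset.sum_le_sum fun ω₁ _ => ?_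
  by_cases hω : e ω₁ = 0
  · have hω' : res p E₁ ω₁ = 0 := hω
    rw [hω, hω', zero_mul, zero_mul, mul_zero]
  · obtain ⟨p1, m1⟩ := epos _ hω
    rw [← mul_assoc, mul_comm (κx * κx * (C₃ / γ) * (1 + B) / (lS * lc)), mul_assoc (e ω₁),
      mul_assoc (res p E₁ ω₁)]
    refine mul_le_mul_of_nonneg_left ?_ (e0 _)
    -- the weight
    have hlG := law_pos hp.nonneg G p1
    have hlGc := law_pos hp.nonneg (fun ω => (G ω, c ω)) p1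
    have hw : 1 / law p (fun ω => (G ω, c ω)) (G ω₁, c ω₁) ≤
        1 / (lS * lc) * (1 / law p G (G ω₁)) := by
      rw [one_div_mul_one_div, ]
      apply one_div_le_one_div_of_le (by positivity)
      have q1 := hEl ω₁ m1
      have q2 := hEc ω₁ m1
      have q3 : law p (fun ω => (S ω, G ω)) (S ω₁, G ω₁) ≤
          law p (fun ω => (G ω, S ω)) (G ω₁, S ω₁) :=
        law_mono_of_det hp.nonneg (X := fun ω => (S ω, G ω)) (Y := fun ω => (G ω, S ω))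
          (fun _ _ _ _ e => Prod.ext (Prod.ext_iff.mp e).2 (Prod.ext_iff.mp e).1) p1
      have q4 : law p (fun ω => (c ω, (G ω, S ω))) (c ω₁, (G ω₁, S ω₁)) ≤
          law p (fun ω => (G ω, c ω)) (G ω₁, c ω₁) :=
        law_mono_of_det hp.nonneg (X := fun ω => (c ω, (G ω, S ω))) (Y := fun ω => (G ω, c ω))
          (fun _ _ _ _ e => Prod.ext (Prod.ext_iff.mp (Prod.ext_iff.mp e).2).1
            (Prod.ext_iff.mp e).1) p1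
      calc lS * lc * law p G (G ω₁) = lc * (lS * law p G (G ω₁)) := by ring
        _ ≤ lc * law p (fun ω => (G ω, S ω)) (G ω₁, S ω₁) :=
          mul_le_mul_of_nonneg_left (q1.trans q3) hlc.le
        _ ≤ _ := q2.trans q4
    have hin : ∑ ω₂, e ω₂ * (if (G ω₂, c ω₂) = (G ω₁, c ω₁) then Q ω₁ ω₂ else 0) ≤
        κx * κx * (C₃ / γ) * (1 + B) * ∑ ω₂, res p E₁ ω₂ *
      (if G ω₂ = G ω₁ ∧ S ω₂ = S ω₁ then
        pd n ((X ω₁ - X ω₂) + ((S ω₁ : ℝ) - S₁ (G ω₁)) / 2 ^ M * (v ω₁ - v ω₂)) else 0) := by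
      rw [Finset.mul_sum]
      refine Finset.sum_le_sum fun ω₂ _ => ?_
      by_cases hω2 : e ω₂ = 0
      · have hω2' : res p E₁ ω₂ = 0 := hω2
        rw [hω2, hω2', zero_mul, zero_mul, mul_zero]
      · obtain ⟨p2, m2⟩ := epos _ hω2
        rw [← mul_assoc, mul_comm (κx * κx * (C₃ / γ) * (1 + B)), mul_assoc (res p E₁ ω₂)]
        refine mul_le_mul_of_nonneg_left ?_ (e0 _)
        by_cases h : (G ω₂, c ω₂) = (G ω₁, c ω₁)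
        · have hG : G ω₂ = G ω₁ := (Prod.ext_iff.mp h).1
          have hc : c ω₂ = c ω₁ := (Prod.ext_iff.mp h).2
          have hS : S ω₂ = S ω₁ := D.cS _ _ p2 p1 hc
          rw [if_pos h, if_pos ⟨hG, hS⟩]
          have i1 := inn D h3 hκx E₁ E₃ hγ hEx p1 p2 m1 m2 hG.symm hc.symm
          have i2 : Q ω₁ ω₂ ≤ κx * κx * (C₃ * pd n (x ω₁ - x ω₂) / γ) := i1
          have i3 := pd_near (n := n) (B := B) (by linarith) (hmov ω₁ ω₂ p1 p2 hG.symm hS.symm)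
          refine i2.trans ?_
          calc κx * κx * (C₃ * pd n (x ω₁ - x ω₂) / γ) =
              κx * κx * (C₃ / γ) * pd n (x ω₁ - x ω₂) := by ring
            _ ≤ κx * κx * (C₃ / γ) * ((1 + B) * pd n ((X ω₁ - X ω₂) +
                ((S ω₁ : ℝ) - S₁ (G ω₁)) / 2 ^ M * (v ω₁ - v ω₂))) :=
              mul_le_mul_of_nonneg_left i3 (by positivity)
            _ = _ := by ring
        · rw [if_neg h]
          refine mul_nonneg (by positivity) ?_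
          split_ifs
          · exact (pd_pos _ _).le
          · exact le_rfl
    have hnn : 0 ≤ ∑ ω₂, e ω₂ * (if (G ω₂, c ω₂) = (G ω₁, c ω₁) then Q ω₁ ω₂ else 0) := by
      refine Finset.sum_nonneg fun ω₂ _ => mul_nonneg (e0 _) ?_
      split_ifs
      · refine Finset.sum_nonneg fun w₁ _ => Finset.sum_nonneg fun w₂ _ => ?_
        split_ifs
        · exact mul_nonneg (f0 _ _) (f0 _ _)
        · exact le_rfl
      · exact le_rfl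
    calc 1 / law p (fun ω => (G ω, c ω)) (G ω₁, c ω₁) *
        ∑ ω₂, e ω₂ * (if (G ω₂, c ω₂) = (G ω₁, c ω₁) then Q ω₁ ω₂ else 0) ≤
        (1 / (lS * lc) * (1 / law p G (G ω₁))) *
        ∑ ω₂, e ω₂ * (if (G ω₂, c ω₂) = (G ω₁, c ω₁) then Q ω₁ ω₂ else 0) :=
          mul_le_mul_of_nonneg_right hw hnn
      _ ≤ (1 / (lS * lc) * (1 / law p G (G ω₁))) * (κx * κx * (C₃ / γ) * (1 + B) *
          ∑ ω₂, res p E₁ ω₂ * (if G ω₂ = G ω₁ ∧ S ω₂ = S ω₁ then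
        pd n ((X ω₁ - X ω₂) + ((S ω₁ : ℝ) - S₁ (G ω₁)) / 2 ^ M * (v ω₁ - v ω₂)) else 0)) :=
          mul_le_mul_of_nonneg_left hin (by positivity)
      _ = _ := by ring

end

end Pool.LX
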