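import Mathlib

/-!
# Number lemmas for LEMMA X

`pd n y = 1 / max (|y|, 2^-n)`.
-/

set_option autoImplicit false

namespace Pool.LX

/-- `1 / max (|y|, 2^-n)` -/
noncomputable def pd (n : ℕ) (y : ℝ) : ℝ := (max |y| (1 / 2 ^ n))⁻¹

/-- (N1) the average of `pd` over the times. -/
def N1Stmt : Prop :=
  ∀ B : ℝ, 1 ≤ B → ∃ C : ℝ, 0 < C ∧ ∀ (n M : ℕ) (a b σ₀ : ℝ) (F : Finset ℤ), n ≤ M →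
    |a| ≤ B → |b| ≤ B → (∀ S ∈ F, |((S : ℝ) - σ₀)| ≤ B * 2 ^ M) →
    ∑ S ∈ F, pd n (a + ((S : ℝ) - σ₀) / 2 ^ M * b) ≤ C * 2 ^ M * (n + 1) * pd n a

/-- (N2) the sum of `pd` over cells. -/
def N2Stmt : Prop :=
  ∀ B : ℝ, 1 ≤ B → ∃ C : ℝ, 0 < C ∧ ∀ (n : ℕ) (x : ℝ) (F : Finset ℤ) (y : ℤ → ℝ),
    (∀ A ∈ F, ⌊(2 : ℝ) ^ n * y A⌋ = A ∧ |x - y A| ≤ B) →
    ∑ A ∈ F, pd n (x - y A) ≤ C * 2 ^ n * (n + 1)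

/-- (N3) the common cells of two strips. -/
def N3Stmt : Prop :=
  ∀ B : ℝ, 1 ≤ B → ∃ C : ℝ, 0 < C ∧ ∀ (n : ℕ) (γ x₁ x₂ u₁ u₂ g g₁ g₂ : ℝ) (F : Finset ℤ),
    0 < γ → γ ≤ 1 → |g| ≤ B → |g₁| ≤ B → |g₂| ≤ B → γ ≤ |g - g₁| → γ ≤ |g - g₂| →
    |x₁ - x₂| ≤ B → |(u₁ - u₂) - g * (x₁ - x₂)| ≤ B / 2 ^ n →
    (∀ A ∈ F, ∃ y₁ y₂ w₁ w₂ : ℝ, ⌊(2 : ℝ) ^ n * y₁⌋ = A ∧ ⌊(2 : ℝ) ^ n * y₂⌋ = A ∧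
      ⌊(2 : ℝ) ^ n * w₁⌋ = ⌊(2 : ℝ) ^ n * w₂⌋ ∧ |y₁ - x₁| ≤ B ∧ |y₂ - x₂| ≤ B ∧
      |(w₁ - u₁) - g₁ * (y₁ - x₁)| ≤ B / 2 ^ n ∧ |(w₂ - u₂) - g₂ * (y₂ - x₂)| ≤ B / 2 ^ n) →
    (F.card : ℝ) ≤ C * pd n (x₁ - x₂) / γ

theorem pd_pos (n : ℕ) (y : ℝ) : 0 < pd n y := by
  unfold pd
  have : (0 : ℝ) < 1 / 2 ^ n := by positivity
  positivity

theorem pd_le (n : ℕ) (y : ℝ) : pd n y ≤ 2 ^ n := by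
  unfold pd
  have h : (0 : ℝ) < 1 / 2 ^ n := by positivity
  calc (max |y| (1 / 2 ^ n))⁻¹ ≤ (1 / 2 ^ n : ℝ)⁻¹ := by
        apply inv_anti₀ h (le_max_right _ _)
    _ = 2 ^ n := by simp

/-- (N0) -/
theorem pd_near {n : ℕ} {y y' B : ℝ} (hB : 0 ≤ B) (h : |y - y'| ≤ B / 2 ^ n) :
    pd n y ≤ (1 + B) * pd n y' := by
  unfold pd
  have h0 : (0 : ℝ) < 1 / 2 ^ n := by positivity
  have h1 : (0 : ℝ) < max |y| (1 / 2 ^ n) := lt_max_of_lt_right h0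
  have h2 : (0 : ℝ) < max |y'| (1 / 2 ^ n) := lt_max_of_lt_right h0
  rw [← div_eq_mul_inv, le_div_iff₀ h2, inv_mul_le_iff₀ h1]
  have h3 : |y'| ≤ |y| + B / 2 ^ n := by
    have := abs_sub_abs_le_abs_sub y' y
    rw [abs_sub_comm] at h
    linarith
  have h4 : B / 2 ^ n ≤ B * max |y| (1 / 2 ^ n) := by
    calc B / 2 ^ n = B * (1 / 2 ^ n) := by ring
      _ ≤ _ := mul_le_mul_of_nonneg_left (le_max_right _ _) hB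
  apply max_le
  · have := le_max_left |y| (1 / 2 ^ n : ℝ)
    nlinarith
  · have := le_max_right |y| (1 / 2 ^ n : ℝ)
    nlinarith

end Pool.LX
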