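import Pool.Agent.H86.LX.Stmt
import Pool.Agent.H86.LX.NumStmt

/-!
# Tools for LEMMA X: change of measure, tails of densities, entropy from collisions
-/

set_option autoImplicit false

namespace Pool.LX

open Finset Real
open Pool.Agent.H49.Ent Pool.Agent.H32.Dense Pool.STK Pool.KAF

variable {Ω S T : Type} [Fintype Ω]

open Classical in
theorem Pr_sum (p : Ω → ℝ) (E : Set Ω) : Pr p E = ∑ ω, (if ω ∈ E then p ω else 0) := by
  unfold Pr Pool.Agent.H49.Ent.law
  refine Finset.sum_congr rfl fun ω _ => ?_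
  by_cases h : ω ∈ E <;> simp [h]

/-- Sum by the values of `C`. -/
theorem sum_by [DecidableEq T] (C : Ω → T) (g : T → Ω → ℝ) :
    ∑ ω, g (C ω) ω = ∑ c ∈ univ.image C, ∑ ω, if C ω = c then g c ω else 0 := by
  rw [Finset.sum_comm]
  refine Finset.sum_congr rfl fun ω _ => ?_
  rw [Finset.sum_eq_single (C ω)]
  · simp
  · intro c _ hc
    rw [if_neg (Ne.symm hc)]
  · intro h
    exact absurd (Finset.mem_image_of_mem C (Finset.mem_univ ω)) h

/-- **Change of measure.** -/
theorem cm {p : Ω → ℝ} (X : Ω → S) (C : Ω → T) (F : T → Finset S)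
    (hF : ∀ ω, p ω ≠ 0 → X ω ∈ F (C ω)) (w h : T → S → ℝ)
    (hw : ∀ c, ∀ s ∈ F c, w c s * law p (fun ω => (X ω, C ω)) (s, c) ≤ h c s * law p C c) :
    ∑ ω, p ω * w (C ω) (X ω) ≤ ∑ ω, p ω * ∑ s ∈ F (C ω), h (C ω) s := by
  classical
  have e1 : ∑ ω, p ω * w (C ω) (X ω) =
      ∑ ω, p ω * ∑ s ∈ F (C ω), (if X ω = s then w (C ω) s else 0) := by
    refine Finset.sum_congr rfl fun ω _ => ?_
    by_cases h0 : p ω = 0
    · rw [h0, zero_mul, zero_mul]
    · rw [Finset.sum_ite_eq, if_pos (hF ω h0)]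
  rw [e1, sum_by C (fun c ω => p ω * ∑ s ∈ F c, (if X ω = s then w c s else 0)),
    sum_by C (fun c ω => p ω * ∑ s ∈ F c, h c s)]
  refine Finset.sum_le_sum fun c _ => ?_
  have e2 : ∑ ω, (if C ω = c then p ω * ∑ s ∈ F c, (if X ω = s then w c s else 0) else 0) =
      ∑ s ∈ F c, w c s * law p (fun ω => (X ω, C ω)) (s, c) := by
    unfold law
    simp_rw [Finset.mul_sum]
    rw [Finset.sum_comm]
    refine Finset.sum_congr rfl fun ω _ => ?_
    by_cases hc : C ω = c
    · rw [if_pos hc]
      refine Finset.sum_congr rfl fun s _ => ?_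
      by_cases hs : X ω = s
      · rw [if_pos hs, if_pos (by rw [hs, hc]), mul_comm]
      · rw [if_neg hs, if_neg (fun e => hs (Prod.ext_iff.mp e).1), mul_zero, mul_zero]
    · rw [if_neg hc]
      symm
      refine Finset.sum_eq_zero fun s _ => ?_
      rw [if_neg (fun e => hc (Prod.ext_iff.mp e).2), mul_zero]
  have e3 : ∑ ω, (if C ω = c then p ω * ∑ s ∈ F c, h c s else 0) =
      ∑ s ∈ F c, h c s * law p C c := by
    rw [← Finset.sum_mul]
    unfold law
    rw [Finset.mul_sum]
    refine Finset.sum_congr rfl fun ω _ => ?_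
    split_ifs
    · ring
    · ring
  rw [e2, e3]
  exact Finset.sum_le_sum fun s hs => hw c s hs

/-- The mean of the inverse of the density is at most the number of values. -/
theorem inv_dn {p : Ω → ℝ} (hp : IsLaw p) (X : Ω → S) (C : Ω → T) (F : T → Finset S) {N : ℝ}
    (hF : ∀ ω, p ω ≠ 0 → X ω ∈ F (C ω)) (hN : ∀ ω, p ω ≠ 0 → ((F (C ω)).card : ℝ) ≤ N) :
    ∑ ω, p ω * (law p C (C ω) / law p (fun ω => (X ω, C ω)) (X ω, C ω)) ≤ N := by
  have h1 := cm (p := p) X C F hF
    (fun c s => law p C c / law p (fun ω => (X ω, C ω)) (s, c)) (fun _ _ => 1) (by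
      intro c s _
      rw [one_mul]
      by_cases h0 : law p (fun ω => (X ω, C ω)) (s, c) = 0
      · rw [h0, mul_zero]
        exact law_nonneg hp.nonneg _ _
      · exact (div_mul_cancel₀ _ h0).le)
  refine h1.trans ?_
  have h2 : ∑ ω, p ω * ∑ s ∈ F (C ω), (1 : ℝ) ≤ ∑ ω, p ω * N := by
    refine Finset.sum_le_sum fun ω _ => ?_
    by_cases h0 : p ω = 0
    · rw [h0, zero_mul, zero_mul]
    · refine mul_le_mul_of_nonneg_left ?_ (hp.nonneg ω)
      simpa using hN ω h0
  refine h2.trans ?_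
  rw [← Finset.sum_mul, hp.sum_one, one_mul]

/-- Lower tail of the density. -/
theorem tail_lo {p : Ω → ℝ} (hp : IsLaw p) (X : Ω → S) (C : Ω → T) (F : T → Finset S) {N θ : ℝ}
    (hF : ∀ ω, p ω ≠ 0 → X ω ∈ F (C ω)) (hN : ∀ ω, p ω ≠ 0 → ((F (C ω)).card : ℝ) ≤ N)
    (hN0 : 0 < N) (hθ : 0 < θ) :
    Pr p {ω | law p (fun ω => (X ω, C ω)) (X ω, C ω) < θ / N * law p C (C ω)} ≤ θ := by
  classical
  have h1 := inv_dn hp X C F hF hN
  rw [Pr_sum]
  have h2 : ∑ ω, (if ω ∈ {ω | law p (fun ω => (X ω, C ω)) (X ω, C ω) < θ / N * law p C (C ω)}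
      then p ω else 0) ≤
      ∑ ω, θ / N * (p ω * (law p C (C ω) / law p (fun ω => (X ω, C ω)) (X ω, C ω))) := by
    refine Finset.sum_le_sum fun ω _ => ?_
    have hr : 0 ≤ law p C (C ω) / law p (fun ω => (X ω, C ω)) (X ω, C ω) :=
      div_nonneg (law_nonneg hp.nonneg _ _) (law_nonneg hp.nonneg _ _)
    by_cases h0 : p ω = 0
    · rw [h0]; simp
    · have h0' : 0 < p ω := lt_of_le_of_ne (hp.nonneg ω) (Ne.symm h0)
      split_ifs with h
      · have h3 := law_pos hp.nonneg (fun ω => (X ω, C ω)) h0'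
        have h4 : 1 ≤ θ / N * (law p C (C ω) / law p (fun ω => (X ω, C ω)) (X ω, C ω)) := by
          rw [← mul_div_assoc, le_div_iff₀ h3, one_mul]
          exact le_of_lt h
        calc p ω = p ω * 1 := (mul_one _).symm
          _ ≤ p ω * (θ / N * (law p C (C ω) / law p (fun ω => (X ω, C ω)) (X ω, C ω))) :=
            mul_le_mul_of_nonneg_left h4 h0'.le
          _ = _ := by ring
      · exact mul_nonneg (by positivity) (mul_nonneg h0'.le hr)
  refine h2.trans ?_
  rw [← Finset.mul_sum]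
  calc θ / N * _ ≤ θ / N * N := mul_le_mul_of_nonneg_left h1 (by positivity)
    _ = θ := div_mul_cancel₀ _ hN0.ne'

/-- Upper tail of the density, from fullness of the entropy. -/
theorem tail_up {p : Ω → ℝ} (hp : IsLaw p) (X : Ω → S) (C : Ω → T) (F : T → Finset S)
    {N d s : ℝ} (hF : ∀ ω, p ω ≠ 0 → X ω ∈ F (C ω))
    (hN : ∀ ω, p ω ≠ 0 → ((F (C ω)).card : ℝ) ≤ N) (hN0 : 0 < N) (hs : 0 < s)
    (hH : Real.log N - d ≤ CH p X C) :
    Pr p {ω | Real.exp s / N * law p C (C ω) < law p (fun ω => (X ω, C ω)) (X ω, C ω)} ≤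
      (d + 1) / s := by
  classical
  have h1 := inv_dn hp X C F hF hN
  rw [Pr_sum, le_div_iff₀ hs, Finset.sum_mul]
  rw [CH_eq_neg_sum hp.nonneg] at hH
  unfold Ex at hH
  have h2 : ∑ ω, (if ω ∈ {ω | Real.exp s / N * law p C (C ω) <
      law p (fun ω => (X ω, C ω)) (X ω, C ω)} then p ω else 0) * s ≤
      ∑ ω, (p ω * (Real.log N) - p ω * -Real.log (law p (fun ω => (X ω, C ω)) (X ω, C ω) /
        law p C (C ω)) +
        1 / N * (p ω * (law p C (C ω) / law p (fun ω => (X ω, C ω)) (X ω, C ω)))) := by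
    refine Finset.sum_le_sum fun ω _ => ?_
    by_cases h0 : p ω = 0
    · rw [h0]; simp
    · have h0' : 0 < p ω := lt_of_le_of_ne (hp.nonneg ω) (Ne.symm h0)
      have h3 := law_pos hp.nonneg (fun ω => (X ω, C ω)) h0'
      have h4 := law_pos hp.nonneg C h0'
      set a := law p (fun ω => (X ω, C ω)) (X ω, C ω)
      set b := law p C (C ω)
      have h5 : 0 ≤ Real.log (N * (a / b)) + 1 / N * (b / a) := by
        have h6 := Real.log_le_sub_one_of_pos (x := (N * (a / b))⁻¹) (by positivity)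
        rw [Real.log_inv] at h6
        have h7 : (N * (a / b))⁻¹ = 1 / N * (b / a) := by
          field_simp
        rw [h7] at h6
        linarith
      have h8 : Real.log (N * (a / b)) = Real.log N + Real.log (a / b) :=
        Real.log_mul hN0.ne' (by positivity)
      have h9 : p ω * Real.log N - p ω * -Real.log (a / b) + 1 / N * (p ω * (b / a)) =
          p ω * (Real.log (N * (a / b)) + 1 / N * (b / a)) := by
        rw [h8]; ring
      rw [h9]
      split_ifs with h
      · refine mul_le_mul_of_nonneg_left ?_ h0'.le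
        have h10 : Real.exp s ≤ N * (a / b) := by
          rw [← mul_div_assoc, le_div_iff₀ h4]
          have : Real.exp s / N * b < a := h
          rw [div_mul_eq_mul_div, div_lt_iff₀ hN0] at this
          linarith
        have h11 : s ≤ Real.log (N * (a / b)) := by
          rw [Real.le_log_iff_exp_le (by positivity)]
          exact h10
        have : 0 ≤ 1 / N * (b / a) := by positivity
        linarith
      · rw [zero_mul]
        exact mul_nonneg h0'.le h5
  refine h2.trans ?_
  rw [Finset.sum_add_distrib, Finset.sum_sub_distrib, ← Finset.sum_mul, hp.sum_one, one_mul,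
    ← Finset.mul_sum]
  have h3 : 1 / N * ∑ ω, p ω * (law p C (C ω) / law p (fun ω => (X ω, C ω)) (X ω, C ω)) ≤ 1 := by
    calc _ ≤ 1 / N * N := mul_le_mul_of_nonneg_left h1 (by positivity)
      _ = 1 := by field_simp
  linarith

/-- The law restricted to an event. -/
noncomputable def res (p : Ω → ℝ) (E : Set Ω) (ω : Ω) : ℝ :=
  open Classical in if ω ∈ E then p ω else 0

theorem res_nonneg {p : Ω → ℝ} (hp : ∀ ω, 0 ≤ p ω) (E : Set Ω) (ω : Ω) : 0 ≤ res p E ω := by
  unfold res
  split_ifs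
  · exact hp ω
  · exact le_rfl

theorem res_le {p : Ω → ℝ} (hp : ∀ ω, 0 ≤ p ω) (E : Set Ω) (ω : Ω) : res p E ω ≤ p ω := by
  unfold res
  split_ifs
  · exact le_rfl
  · exact hp ω

theorem law_res_le {p : Ω → ℝ} (hp : ∀ ω, 0 ≤ p ω) (E : Set Ω) (X : Ω → S) (s : S) :
    law (res p E) X s ≤ law p X s := by
  classical
  unfold law
  refine Finset.sum_le_sum fun ω _ => ?_
  split_ifs
  · exact res_le hp E ω
  · exact le_rfl

theorem law_res_compl (p : Ω → ℝ) (E : Set Ω) (X : Ω → S) (s : S) :
    law p X s = law (res p E) X s + law (res p Eᶜ) X s := by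
  classical
  unfold law
  rw [← Finset.sum_add_distrib]
  refine Finset.sum_congr rfl fun ω _ => ?_
  unfold res
  by_cases h : X ω = s <;> by_cases h' : ω ∈ E <;> simp [h, h']

/-- Sum by the values of a variable. -/
theorem sum_law_mul (p q : Ω → ℝ) (X : Ω → S) (g : S → ℝ) :
    ∑ ω, p ω * (law q X (X ω) * g (X ω)) = ∑ ω, q ω * (law p X (X ω) * g (X ω)) := by
  classical
  unfold law
  simp_rw [Finset.sum_mul, Finset.mul_sum]
  rw [Finset.sum_comm]
  refine Finset.sum_congr rfl fun ω _ => Finset.sum_congr rfl fun ω' _ => ?_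
  by_cases h : X ω = X ω'
  · rw [if_pos h, if_pos h.symm, h]; ring
  · rw [if_neg h, if_neg (Ne.symm h)]; ring

/-- **Entropy from collisions.** -/
theorem coll {p : Ω → ℝ} (hp : IsLaw p) (X : Ω → S) (C : Ω → T) (E : Set Ω) {ε K : ℝ}
    (hE : Pr p Eᶜ ≤ ε) (hK0 : 0 < K) (hK1 : 4 * K ≤ 1)
    (hK : ∑ ω, res p E ω * (law (res p E) (fun ω => (X ω, C ω)) (X ω, C ω) / law p C (C ω)) ≤ K) :
    (1 - 2 * ε) * -Real.log (4 * K) - 2 * ε ≤ CH p X C := by
  classical
  set XC : Ω → S × T := fun ω => (X ω, C ω) with hXC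
  set r := res p E with hr
  set r' := res p Eᶜ with hr'
  have hr0 := res_nonneg hp.nonneg E
  have hr0' := res_nonneg hp.nonneg Eᶜ
  -- the good pairs of values
  set Gd : Set Ω := {ω | law p XC (XC ω) ≤ 2 * law r XC (XC ω)} with hGd
  have hbad : ∑ ω, res p Gdᶜ ω ≤ 2 * ε := by
    have h1 : ∀ ω, res p Gdᶜ ω ≤ 2 * (p ω * (law r' XC (XC ω) * (1 / law p XC (XC ω)))) := by
      intro ω
      by_cases h0 : p ω = 0
      · have : res p Gdᶜ ω = 0 := le_antisymm ((res_le hp.nonneg _ ω).trans h0.le)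
          (res_nonneg hp.nonneg _ ω)
        rw [this, h0]; simp
      · have h0' : 0 < p ω := lt_of_le_of_ne (hp.nonneg ω) (Ne.symm h0)
        have h2 := law_pos hp.nonneg XC h0'
        have h3 := law_res_compl p E XC (XC ω)
        have h4 : 0 ≤ law r' XC (XC ω) := law_nonneg hr0' _ _
        unfold res
        split_ifs with h
        · have h5 : ¬ (law p XC (XC ω) ≤ 2 * law r XC (XC ω)) := h
          have h6 : law p XC (XC ω) ≤ 2 * law r' XC (XC ω) := by
            push Not at h5
            linarith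
          have h7 : 1 ≤ 2 * (law r' XC (XC ω) * (1 / law p XC (XC ω))) := by
            rw [mul_one_div, ← mul_div_assoc, le_div_iff₀ h2]
            linarith
          calc p ω = p ω * 1 := (mul_one _).symm
            _ ≤ p ω * (2 * (law r' XC (XC ω) * (1 / law p XC (XC ω)))) :=
              mul_le_mul_of_nonneg_left h7 h0'.le
            _ = _ := by ring
        · positivity
    refine (Finset.sum_le_sum fun ω _ => h1 ω).trans ?_
    rw [← Finset.mul_sum]
    refine mul_le_mul_of_nonneg_left ?_ (by norm_num)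
    rw [sum_law_mul p r' XC (fun y => 1 / law p XC y)]
    refine le_trans ?_ hE
    rw [Pr_sum]
    refine Finset.sum_le_sum fun ω _ => ?_
    by_cases h0 : p ω = 0
    · have : r' ω = 0 := le_antisymm ((res_le hp.nonneg _ ω).trans h0.le)
          (res_nonneg hp.nonneg _ ω)
      rw [this, h0]; simp
    · have h0' : 0 < p ω := lt_of_le_of_ne (hp.nonneg ω) (Ne.symm h0)
      have h2 := law_pos hp.nonneg XC h0'
      rw [mul_one_div, div_self h2.ne', mul_one]
      show r' ω ≤ _
      rw [hr']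
      unfold res
      exact le_rfl
  have hgood : 1 - 2 * ε ≤ ∑ ω, res p Gd ω := by
    have h1 : ∑ ω, p ω = ∑ ω, res p Gd ω + ∑ ω, res p Gdᶜ ω := by
      rw [← Finset.sum_add_distrib]
      refine Finset.sum_congr rfl fun ω _ => ?_
      unfold res
      by_cases h' : ω ∈ Gd <;> simp [h']
    rw [hp.sum_one] at h1
    linarith
  have hG1 : ∑ ω, res p Gd ω ≤ 1 := by
    rw [← hp.sum_one]
    exact Finset.sum_le_sum fun ω _ => res_le hp.nonneg _ ω
  -- the second moment
  have hsec : ∑ ω, res p Gd ω * (law p XC (XC ω) / law p C (C ω)) ≤ 4 * K := by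
    have h1 : ∀ ω, res p Gd ω * (law p XC (XC ω) / law p C (C ω)) ≤
        2 * (p ω * (law r XC (XC ω) * ((if law p XC (XC ω) ≤ 2 * law r XC (XC ω) then 1 else 0) *
          (1 / law p C (XC ω).2)))) := by
      intro ω
      have h2 : 0 ≤ law p C (C ω) := law_nonneg hp.nonneg _ _
      have h3 : 0 ≤ law r XC (XC ω) := law_nonneg hr0 _ _
      have h4 := hp.nonneg ω
      show _ ≤ 2 * (p ω * (law r XC (XC ω) * (_ * (1 / law p C (C ω)))))
      unfold res
      by_cases h : ω ∈ Gd
      · have h5 : law p XC (XC ω) ≤ 2 * law r XC (XC ω) := h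
        rw [if_pos h, if_pos h5]
        have h6 : law p XC (XC ω) / law p C (C ω) ≤ 2 * law r XC (XC ω) / law p C (C ω) :=
          div_le_div_of_nonneg_right h5 h2
        calc p ω * (law p XC (XC ω) / law p C (C ω)) ≤
            p ω * (2 * law r XC (XC ω) / law p C (C ω)) := mul_le_mul_of_nonneg_left h6 h4
          _ = _ := by ring
      · have h5 : ¬ (law p XC (XC ω) ≤ 2 * law r XC (XC ω)) := h
        rw [if_neg h, if_neg h5]
        simp
    refine (Finset.sum_le_sum fun ω _ => h1 ω).trans ?_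
    rw [← Finset.mul_sum, sum_law_mul p r XC (fun y =>
      (if law p XC y ≤ 2 * law r XC y then 1 else 0) * (1 / law p C y.2))]
    have h5 : ∑ ω, r ω * (law p XC (XC ω) * ((if law p XC (XC ω) ≤ 2 * law r XC (XC ω) then 1
        else 0) * (1 / law p C (XC ω).2))) ≤
        2 * ∑ ω, r ω * (law r XC (XC ω) / law p C (C ω)) := by
      rw [Finset.mul_sum]
      refine Finset.sum_le_sum fun ω _ => ?_
      have h2 : 0 ≤ law p C (C ω) := law_nonneg hp.nonneg _ _
      have h3 : 0 ≤ law r XC (XC ω) := law_nonneg hr0 _ _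
      have h4 := hr0 ω
      show _ * (_ * (_ * (1 / law p C (C ω)))) ≤ _
      split_ifs with h
      · have h6 : law p XC (XC ω) / law p C (C ω) ≤ 2 * law r XC (XC ω) / law p C (C ω) :=
          div_le_div_of_nonneg_right h h2
        calc r ω * (law p XC (XC ω) * (1 * (1 / law p C (C ω)))) =
            r ω * (law p XC (XC ω) / law p C (C ω)) := by ring
          _ ≤ r ω * (2 * law r XC (XC ω) / law p C (C ω)) := mul_le_mul_of_nonneg_left h6 h4
          _ = _ := by ring
      · simp only [zero_mul, mul_zero]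
        positivity
    linarith
  -- the end
  rw [CH_eq_neg_sum hp.nonneg]
  unfold Ex
  have h4K : (0 : ℝ) < 4 * K := by positivity
  have hmain : ∑ ω, (res p Gd ω * (1 - Real.log (4 * K)) -
      1 / (4 * K) * (res p Gd ω * (law p XC (XC ω) / law p C (C ω)))) ≤
      ∑ ω, p ω * -Real.log (law p XC (XC ω) / law p C (C ω)) := by
    refine Finset.sum_le_sum fun ω _ => ?_
    by_cases h0 : p ω = 0
    · have : res p Gd ω = 0 := le_antisymm ((res_le hp.nonneg _ ω).trans h0.le)
          (res_nonneg hp.nonneg _ ω)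
      rw [this, h0]; simp
    · have h0' : 0 < p ω := lt_of_le_of_ne (hp.nonneg ω) (Ne.symm h0)
      have h2 := law_pos hp.nonneg XC h0'
      have h3 := law_pos hp.nonneg C h0'
      set y := law p XC (XC ω) / law p C (C ω) with hy
      have hy0 : 0 < y := div_pos h2 h3
      have hy1 : y ≤ 1 := by
        rw [hy, div_le_one h3]
        exact law_mono_of_det hp.nonneg (X := XC) (Y := C)
          (fun _ _ _ _ e => (Prod.ext_iff.mp e).2) h0'
      have h5 : 0 ≤ -Real.log y := by
        have := Real.log_nonpos hy0.le hy1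
        linarith
      unfold res
      split_ifs with h
      · have h6 := Real.log_le_sub_one_of_pos (x := y / (4 * K)) (by positivity)
        rw [Real.log_div hy0.ne' h4K.ne'] at h6
        have h7 : 1 - Real.log (4 * K) - 1 / (4 * K) * y ≤ -Real.log y := by
          have : y / (4 * K) = 1 / (4 * K) * y := by ring
          linarith
        calc p ω * (1 - Real.log (4 * K)) - 1 / (4 * K) * (p ω * y) =
            p ω * (1 - Real.log (4 * K) - 1 / (4 * K) * y) := by ring
          _ ≤ p ω * -Real.log y := mul_le_mul_of_nonneg_left h7 h0'.le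
      · simp only [zero_mul, mul_zero, sub_zero]
        exact mul_nonneg h0'.le h5
  refine le_trans ?_ hmain
  rw [Finset.sum_sub_distrib, ← Finset.sum_mul, ← Finset.mul_sum]
  have h5 : 1 / (4 * K) * ∑ ω, res p Gd ω * (law p XC (XC ω) / law p C (C ω)) ≤ 1 := by
    calc _ ≤ 1 / (4 * K) * (4 * K) := mul_le_mul_of_nonneg_left hsec (by positivity)
      _ = 1 := by field_simp
  have h6 : 0 ≤ -Real.log (4 * K) := by
    have := Real.log_nonpos h4K.le hK1
    linarith
  have h7 : (1 - 2 * ε) * (1 - Real.log (4 * K)) ≤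
      (∑ ω, res p Gd ω) * (1 - Real.log (4 * K)) :=
    mul_le_mul_of_nonneg_right hgood (by linarith)
  nlinarith

end Pool.LX
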